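import Mathlib

open scoped Manifold ContDiff Topology
open MeasureTheory Set Filter Bundle

namespace Pool.Agent.Palis

section Defs

variable (E : Type) [NormedAddCommGroup E] [NormedSpace ℝ E] {M : Type} [TopologicalSpace M]
  [ChartedSpace E M]

/-- Sets of Lebesgue measure zero of the manifold `M` modelled on the finite dimensional real
vector space `E`: the image in every preferred chart has Lebesgue measure zero. -/
def Null [FiniteDimensional ℝ E] [MeasurableSpace E] [BorelSpace E] (S : Set M) : Prop :=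
  ∀ x : M, (Measure.addHaar : Measure E)
    (extChartAt 𝓘(ℝ, E) x '' (S ∩ (extChartAt 𝓘(ℝ, E) x).source)) = 0

/-- `ω(p)`: the set of cluster points, as time tends to `+∞`, of the integral curve through `p`. -/
def omegaSet (X : ∀ x : M, TangentSpace 𝓘(ℝ, E) x) (p : M) : Set M :=
  {q | ∃ γ : ℝ → M, γ 0 = p ∧ IsMIntegralCurve γ X ∧ MapClusterPt q atTop γ}

/-- The basin of `Λ`: the points `p` whose integral curve exists for all times
and whose `ω`-limit set is contained in `Λ`. -/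
def basin (X : ∀ x : M, TangentSpace 𝓘(ℝ, E) x) (Λ : Set M) : Set M :=
  {p | (∃ γ : ℝ → M, γ 0 = p ∧ IsMIntegralCurve γ X) ∧ omegaSet E X p ⊆ Λ}

/-- `Λ` is invariant under the flow of `X`. -/
def Invariant (X : ∀ x : M, TangentSpace 𝓘(ℝ, E) x) (Λ : Set M) : Prop :=
  ∀ γ : ℝ → M, IsMIntegralCurve γ X → γ 0 ∈ Λ → ∀ t : ℝ, γ t ∈ Λ

/-- `Λ` contains a point whose forward orbit is dense in `Λ`. -/
def Transitive (X : ∀ x : M, TangentSpace 𝓘(ℝ, E) x) (Λ : Set M) : Prop :=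
  ∃ γ : ℝ → M, IsMIntegralCurve γ X ∧ γ 0 ∈ Λ ∧ Λ ⊆ closure (γ '' Ici 0)

/-- `Λ` is an attractor of the flow of `X`: it is invariant, transitive, and its basin has
positive Lebesgue measure. -/
structure IsAttractor [FiniteDimensional ℝ E] [MeasurableSpace E] [BorelSpace E]
    (X : ∀ x : M, TangentSpace 𝓘(ℝ, E) x) (Λ : Set M) : Prop where
  invariant : Invariant E X Λ
  transitive : Transitive E X Λ
  positive_basin : ¬ Null E (basin E X Λ)

/-- Finitely many attractors whose basins cover `M` up to measure zero. -/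
def FinitelyManyAttractors [FiniteDimensional ℝ E] [MeasurableSpace E] [BorelSpace E]
    (X : ∀ x : M, TangentSpace 𝓘(ℝ, E) x) : Prop :=
  ∃ F : Set (Set M), F.Finite ∧ (∀ Λ ∈ F, IsAttractor E X Λ) ∧
    Null E (⋃ Λ ∈ F, basin E X Λ)ᶜ

variable (M)

/-- The real vector space of `C^r` vector fields on `M`. -/
abbrev VField [IsManifold 𝓘(ℝ, E) ∞ M] (r : ℕ∞) : Type :=
  Cₛ^(r : ℕ∞ω)⟮𝓘(ℝ, E); E, (TangentSpace 𝓘(ℝ, E) : M → Type)⟯

variable {M}

/-- The vector field `X` read in the preferred chart `φ` at `x₀`: `y ↦ Dφ (X (φ⁻¹ y))`. -/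
noncomputable def localRep (X : ∀ x : M, TangentSpace 𝓘(ℝ, E) x) (x₀ : M) (y : E) : E :=
  mfderiv 𝓘(ℝ, E) 𝓘(ℝ, E) (extChartAt 𝓘(ℝ, E) x₀) ((extChartAt 𝓘(ℝ, E) x₀).symm y)
    (X ((extChartAt 𝓘(ℝ, E) x₀).symm y))

variable (M)

/-- The `C^r` topology on the space of `C^r` vector fields (`r` an integer or `∞`): uniform
convergence on compact subsets of the charts of all derivatives of order at most `r`. It is
generated by the sets of all `X` for which the `k`-th derivative (`k ≤ r`) of `X - X₀`, read in a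
chart, is smaller than `ε` on the compact subset `K` of this chart. -/
@[instance_reducible] def crTopology [IsManifold 𝓘(ℝ, E) ∞ M] (r : ℕ∞) : TopologicalSpace (VField E M r) :=
  TopologicalSpace.generateFrom {U | ∃ (X₀ : VField E M r) (x₀ : M) (K : Set M) (k : ℕ) (ε : ℝ),
    IsCompact K ∧ K ⊆ (extChartAt 𝓘(ℝ, E) x₀).source ∧ (k : ℕ∞) ≤ r ∧
    U = {X | ∀ x ∈ K,
      ‖iteratedFDeriv ℝ k (localRep E (fun z => X z - X₀ z) x₀) (extChartAt 𝓘(ℝ, E) x₀ x)‖ < ε}}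

variable {M}

/-- The differential of a real function at `x`, an element of the cotangent space. -/
noncomputable def diff (h : M → ℝ) (x : M) : TangentSpace 𝓘(ℝ, E) x →L[ℝ] ℝ :=
  mfderiv 𝓘(ℝ, E) 𝓘(ℝ, ℝ) h x

/-- `A` is a `C^r` field of (not necessarily symmetric) bilinear forms on the cotangent spaces
which is nonnegative on the diagonal. A form is given as a linear map from the cotangent space to
the tangent space; `C^r` means that it maps differentials of `C^(r+1)` functions to `C^r` vector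
fields. -/
structure IsNonnegForm [IsManifold 𝓘(ℝ, E) ∞ M] (r : ℕ∞)
    (A : ∀ x : M, (TangentSpace 𝓘(ℝ, E) x →L[ℝ] ℝ) →ₗ[ℝ] TangentSpace 𝓘(ℝ, E) x) : Prop where
  nonneg : ∀ (x : M) (α : TangentSpace 𝓘(ℝ, E) x →L[ℝ] ℝ), 0 ≤ α (A x α)
  smooth : ∀ H : M → ℝ, ContMDiff 𝓘(ℝ, E) 𝓘(ℝ, ℝ) ((r : ℕ∞ω) + 1) H →
    ContMDiff 𝓘(ℝ, E) 𝓘(ℝ, E).tangent r
      (fun x => (⟨x, A x (diff E H x)⟩ : TangentBundle 𝓘(ℝ, E) M))

/-- The fields `A dH` with `A` as above and `H` of class `C^(r+1)`. -/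
def IsEnergyField [IsManifold 𝓘(ℝ, E) ∞ M] (r : ℕ∞) (X : VField E M r) : Prop :=
  ∃ (A : ∀ x : M, (TangentSpace 𝓘(ℝ, E) x →L[ℝ] ℝ) →ₗ[ℝ] TangentSpace 𝓘(ℝ, E) x) (H : M → ℝ),
    IsNonnegForm E r A ∧ ContMDiff 𝓘(ℝ, E) 𝓘(ℝ, ℝ) ((r : ℕ∞ω) + 1) H ∧
      ∀ x, X x = A x (diff E H x)

/-- `Y` has only finitely many zeros and every integral curve converges to a zero of `Y`. -/
def AllConverge (Y : ∀ x : M, TangentSpace 𝓘(ℝ, E) x) : Prop :=
  {x | Y x = 0}.Finite ∧ ∀ p, (∃ γ : ℝ → M, γ 0 = p ∧ IsMIntegralCurve γ Y) ∧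
    ∃ q, Y q = 0 ∧ ∀ γ : ℝ → M, γ 0 = p → IsMIntegralCurve γ Y → Tendsto γ atTop (𝓝 q)

/-- `S` is a nondegenerate alternating 2-form of class `C^r` (an almost symplectic form). -/
structure IsAlmostSymplectic [IsManifold 𝓘(ℝ, E) ∞ M] (r : ℕ∞)
    (S : ∀ x : M, TangentSpace 𝓘(ℝ, E) x →ₗ[ℝ] TangentSpace 𝓘(ℝ, E) x →ₗ[ℝ] ℝ) : Prop where
  alternating : ∀ (x : M) (v : TangentSpace 𝓘(ℝ, E) x), S x v v = 0
  nondegenerate : ∀ (x : M) (v : TangentSpace 𝓘(ℝ, E) x), (∀ w, S x v w = 0) → v = 0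
  smooth : ∀ V W : VField E M r, ContMDiff 𝓘(ℝ, E) 𝓘(ℝ, ℝ) r (fun x => S x (V x) (W x))

end Defs

end Pool.Agent.Palis
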