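import Mathlib
import Pool.Agent.Palis.Defs

open scoped Manifold ContDiff Topology
open MeasureTheory Set Filter Bundle Metric

namespace Pool.Agent.Palis

variable {E : Type} [NormedAddCommGroup E] [NormedSpace ℝ E] [FiniteDimensional ℝ E]
  {M : Type} [TopologicalSpace M] [ChartedSpace E M] [IsManifold 𝓘(ℝ, E) ∞ M]

set_option backward.isDefEq.respectTransparency false in
theorem exists_uniform_local {v : ∀ x : M, TangentSpace 𝓘(ℝ, E) x}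
    (hv : ContMDiff 𝓘(ℝ, E) 𝓘(ℝ, E).tangent 1 (fun x => (⟨x, v x⟩ : TangentBundle 𝓘(ℝ, E) M)))
    (x₀ : M) :
    ∃ U ∈ 𝓝 x₀, ∃ ε > (0:ℝ), ∀ x ∈ U, ∃ γ : ℝ → M, γ 0 = x ∧
      IsMIntegralCurveOn γ v (Ioo (-ε) ε) := by
  have hv0 := hv x₀
  rw [contMDiffAt_iff] at hv0
  obtain ⟨_, hv0⟩ := hv0
  have hcd := (hv0.contDiffAt (by simp)).snd
  set f : E → E := fun y => ((extChartAt 𝓘(ℝ, E).tangent (⟨x₀, v x₀⟩ : TangentBundle 𝓘(ℝ, E) M)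
    ((⟨(extChartAt 𝓘(ℝ, E) x₀).symm y, v ((extChartAt 𝓘(ℝ, E) x₀).symm y)⟩ : TangentBundle 𝓘(ℝ, E) M))).2) with hf
  have hcd' : ContDiffAt ℝ 1 f (extChartAt 𝓘(ℝ, E) x₀ x₀) := hcd
  obtain ⟨ε, hε, a, r, L, K, hr, hpl⟩ := IsPicardLindelof.of_contDiffAt_one hcd'
  obtain ⟨α, hα1, hα2⟩ := (hpl 0).exists_forall_mem_closedBall_eq_hasDerivWithinAt_continuousOn
  set y₀ := extChartAt 𝓘(ℝ, E) x₀ x₀ with hy₀
  have hmem : (y₀, (0:ℝ)) ∈ closedBall y₀ r ×ˢ Icc (0 - ε) (0 + ε) := by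
    refine ⟨mem_closedBall_self (by positivity), ?_, ?_⟩ <;> simp [hε.le]
  have hnh : closedBall y₀ (r:ℝ) ×ˢ Icc (0 - ε) (0 + ε) ∈ 𝓝 (y₀, (0:ℝ)) := by
    apply prod_mem_nhds (closedBall_mem_nhds _ (by exact_mod_cast hr))
    exact Icc_mem_nhds (by linarith) (by linarith)
  have hcont : ContinuousAt α (y₀, 0) := hα2.continuousAt hnh
  have hα0 : α (y₀, 0) = y₀ := (hα1 y₀ (mem_closedBall_self (by positivity))).1
  have htar : (extChartAt 𝓘(ℝ, E) x₀).target ∈ 𝓝 (α (y₀, 0)) := by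
    rw [hα0]; exact extChartAt_target_mem_nhds x₀
  have h1 := hcont.preimage_mem_nhds htar
  have h2 := Filter.inter_mem h1 hnh
  rw [nhds_prod_eq, Filter.mem_prod_iff] at h2
  obtain ⟨A, hA, B, hB, hAB⟩ := h2
  obtain ⟨δ, hδ, hδB⟩ := Metric.mem_nhds_iff.1 hB
  refine ⟨(extChartAt 𝓘(ℝ, E) x₀).source ∩ (extChartAt 𝓘(ℝ, E) x₀) ⁻¹' A, ?_, δ, hδ, ?_⟩
  · exact Filter.inter_mem (extChartAt_source_mem_nhds x₀)
      ((continuousAt_extChartAt x₀).preimage_mem_nhds hA)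
  rintro x ⟨hxs, hxA⟩
  have hxA' : extChartAt 𝓘(ℝ, E) x₀ x ∈ A := hxA
  have key : ∀ t ∈ Ioo (-δ) δ, α (extChartAt 𝓘(ℝ, E) x₀ x, t) ∈ (extChartAt 𝓘(ℝ, E) x₀).target ∧
      (extChartAt 𝓘(ℝ, E) x₀ x, t) ∈ closedBall y₀ (r:ℝ) ×ˢ Icc (0 - ε) (0 + ε) := by
    intro t ht
    have : (extChartAt 𝓘(ℝ, E) x₀ x, t) ∈ A ×ˢ B := by
      refine ⟨hxA', hδB ?_⟩
      rw [Real.ball_eq_Ioo]; simpa using ht
    exact hAB this
  have h0 := (key 0 ⟨by linarith, hδ⟩).2.1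
  refine ⟨fun t => (extChartAt 𝓘(ℝ, E) x₀).symm (α (extChartAt 𝓘(ℝ, E) x₀ x, t)), ?_, ?_⟩
  · show (extChartAt 𝓘(ℝ, E) x₀).symm (α (extChartAt 𝓘(ℝ, E) x₀ x, 0)) = x
    have := (hα1 _ h0).1
    rw [show α (extChartAt 𝓘(ℝ, E) x₀ x, 0) = extChartAt 𝓘(ℝ, E) x₀ x from this]
    exact (extChartAt 𝓘(ℝ, E) x₀).left_inv hxs
  intro t ht
  have hder : HasDerivAt (fun s => α (extChartAt 𝓘(ℝ, E) x₀ x, s)) (f (α (extChartAt 𝓘(ℝ, E) x₀ x, t))) t := by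
    have h3 := (hα1 _ h0).2
    -- need t in the interior of Icc
    have hsub : Ioo (-δ) δ ⊆ Icc (0 - ε) (0 + ε) := fun s hs => (key s hs).2.2
    have hIcc : Icc (0 - ε) (0 + ε) ∈ 𝓝 t := Filter.mem_of_superset (Ioo_mem_nhds ht.1 ht.2) hsub
    exact (h3 t (hsub ht)).hasDerivAt hIcc
  set β : ℝ → E := fun s => α (extChartAt 𝓘(ℝ, E) x₀ x, s) with hβ
  have hf3' : β t ∈ (extChartAt 𝓘(ℝ, E) x₀).target := (key t ht).1
  let xₜ : M := (extChartAt 𝓘(ℝ, E) x₀).symm (β t)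
  have h : HasDerivAt β (fderivWithin ℝ (extChartAt 𝓘(ℝ, E) x₀ ∘ (extChartAt 𝓘(ℝ, E) xₜ).symm)
    (range 𝓘(ℝ, E)) (extChartAt 𝓘(ℝ, E) xₜ xₜ) (v xₜ)) t := hder
  rw [← tangentCoordChange_def] at h
  have hft1 : (extChartAt 𝓘(ℝ, E) x₀).symm (β t) ∈ (extChartAt 𝓘(ℝ, E) x₀).source :=
    (extChartAt 𝓘(ℝ, E) x₀).map_target hf3'
  have hft2 := mem_extChartAt_source (I := 𝓘(ℝ, E)) xₜ
  apply HasMFDerivAt.hasMFDerivWithinAt
  refine ⟨(continuousAt_extChartAt_symm'' hf3').comp h.continuousAt,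
    HasDerivWithinAt.hasFDerivWithinAt ?_⟩
  simp only [mfld_simps, hasDerivWithinAt_univ]
  change HasDerivAt ((extChartAt 𝓘(ℝ, E) xₜ ∘ (extChartAt 𝓘(ℝ, E) x₀).symm) ∘ β) (v xₜ) t
  rw [← tangentCoordChange_self (I := 𝓘(ℝ, E)) (x := xₜ) (z := xₜ) (v := v xₜ) hft2,
    ← tangentCoordChange_comp (x := x₀) ⟨⟨hft2, hft1⟩, hft2⟩]
  apply HasFDerivAt.comp_hasDerivAt _ _ h
  apply HasFDerivWithinAt.hasFDerivAt (s := range 𝓘(ℝ, E)) _ (by simp)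
  rw [← (extChartAt 𝓘(ℝ, E) x₀).right_inv hf3']
  exact hasFDerivWithinAt_tangentCoordChange ⟨hft1, hft2⟩

/-- `C¹` vector fields on compact manifolds are complete. -/
theorem exists_global [CompactSpace M] [T2Space M] {v : ∀ x : M, TangentSpace 𝓘(ℝ, E) x}
    (hv : ContMDiff 𝓘(ℝ, E) 𝓘(ℝ, E).tangent 1 (fun x => (⟨x, v x⟩ : TangentBundle 𝓘(ℝ, E) M)))
    (x : M) : ∃ γ : ℝ → M, γ 0 = x ∧ IsMIntegralCurve γ v := by
  choose U hU ε hε hγ using exists_uniform_local (E := E) hv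
  obtain ⟨t, ht⟩ := CompactSpace.elim_nhds_subcover U hU
  have : IsManifold 𝓘(ℝ, E) 1 M := IsManifold.of_le (n := ∞) (by norm_cast)
  have hne : t.Nonempty := by
    by_contra h
    rw [Finset.not_nonempty_iff_eq_empty] at h
    subst h
    have : x ∈ (⊤ : Set M) := trivial
    rw [← ht] at this
    simp at this
  obtain ⟨i, hi, hmin⟩ := Finset.exists_min_image t ε hne
  refine exists_isMIntegralCurve_of_isMIntegralCurveOn hv (hε i) (fun y => ?_) x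
  have : y ∈ (⊤ : Set M) := trivial
  rw [← ht] at this
  simp only [mem_iUnion] at this
  obtain ⟨j, hj, hyj⟩ := this
  obtain ⟨γ, h0, h1⟩ := hγ j y hyj
  exact ⟨γ, h0, h1.mono (Ioo_subset_Ioo (neg_le_neg (hmin j hj)) (hmin j hj))⟩

end Pool.Agent.Palis
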