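import Mathlib
import Pool.Agent.Palis.Defs
import Pool.Agent.Palis.Flow

open scoped Manifold ContDiff Topology
open MeasureTheory Set Filter Bundle Metric

namespace Pool.Agent.Palis

variable {E : Type} [NormedAddCommGroup E] [NormedSpace ℝ E] [FiniteDimensional ℝ E]
  {M : Type} [TopologicalSpace M] [ChartedSpace E M] [IsManifold 𝓘(ℝ, E) ∞ M]

set_option linter.unusedSectionVars false

/-- derivative of a function along a vector field -/
noncomputable def lieD (h : M → ℝ) (X : ∀ x : M, TangentSpace 𝓘(ℝ, E) x) (x : M) : ℝ :=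
  mfderiv 𝓘(ℝ, E) 𝓘(ℝ, ℝ) h x (X x)

theorem contMDiff_lieD {k m : ℕ∞ω} {h : M → ℝ} {X : ∀ x : M, TangentSpace 𝓘(ℝ, E) x}
    (hh : ContMDiff 𝓘(ℝ, E) 𝓘(ℝ, ℝ) m h) (hkm : k + 1 ≤ m)
    (hX : ContMDiff 𝓘(ℝ, E) 𝓘(ℝ, E).tangent k (fun x => (⟨x, X x⟩ : TangentBundle 𝓘(ℝ, E) M))) :
    ContMDiff 𝓘(ℝ, E) 𝓘(ℝ, ℝ) k (lieD h X) := by
  have h1 := hh.contMDiff_tangentMap hkm
  have h2 := h1.comp hX
  have h3 := (contMDiff_snd_tangentBundle_modelSpace ℝ 𝓘(ℝ, ℝ) (n := k)).comp h2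
  exact h3

set_option backward.isDefEq.respectTransparency false in
theorem hasDerivAt_comp_curve {h : M → ℝ} {X : ∀ x : M, TangentSpace 𝓘(ℝ, E) x}
    (hh : ContMDiff 𝓘(ℝ, E) 𝓘(ℝ, ℝ) 1 h) {γ : ℝ → M} (hγ : IsMIntegralCurve γ X) (t : ℝ) :
    HasDerivAt (fun s => h (γ s)) (lieD h X (γ t)) t := by
  have h1 := ((hh (γ t)).mdifferentiableAt (by norm_num)).hasMFDerivAt
  have h2 := h1.comp t (hγ t)
  have h3 := h2.hasFDerivAt
  have h4 := h3.hasDerivAt
  refine h4.congr_deriv ?_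
  show (mfderiv 𝓘(ℝ, E) 𝓘(ℝ, ℝ) h (γ t)) ((1 : ℝ) • (X (γ t))) = _
  rw [one_smul]; rfl

theorem omega_subset_zero [CompactSpace M] {h : M → ℝ} {Y : ∀ x : M, TangentSpace 𝓘(ℝ, E) x}
    (hh : ContMDiff 𝓘(ℝ, E) 𝓘(ℝ, ℝ) 2 h)
    (hY : ContMDiff 𝓘(ℝ, E) 𝓘(ℝ, E).tangent 1 (fun x => (⟨x, Y x⟩ : TangentBundle 𝓘(ℝ, E) M)))
    (hpos : ∀ x, 0 ≤ lieD h Y x) {γ : ℝ → M} (hγ : IsMIntegralCurve γ Y) {q : M}
    (hq : MapClusterPt q atTop γ) : lieD h Y q = 0 := by
  have hu : ContMDiff 𝓘(ℝ, E) 𝓘(ℝ, ℝ) 1 (lieD h Y) := contMDiff_lieD hh (by norm_num) hY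
  have hw : ContMDiff 𝓘(ℝ, E) 𝓘(ℝ, ℝ) 0 (lieD (lieD h Y) Y) :=
    contMDiff_lieD hu (by norm_num) (hY.of_le (by norm_num))
  obtain ⟨C, hC⟩ := isCompact_univ.exists_bound_of_continuousOn (hw.continuous.continuousOn)
  have hC0 : 0 ≤ C := (norm_nonneg _).trans (hC q trivial)
  have hg : ∀ t, HasDerivAt (fun s => lieD h Y (γ s)) (lieD (lieD h Y) Y (γ t)) t :=
    fun t => hasDerivAt_comp_curve hu hγ t
  have hF : ∀ t, HasDerivAt (fun s => h (γ s)) (lieD h Y (γ t)) t :=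
    fun t => hasDerivAt_comp_curve (hh.of_le (by norm_num)) hγ t
  have hlip : ∀ s t, |lieD h Y (γ t) - lieD h Y (γ s)| ≤ C * |t - s| := by
    intro s t
    have := Convex.norm_image_sub_le_of_norm_hasDerivWithin_le
      (f := fun s => lieD h Y (γ s)) (f' := fun t => lieD (lieD h Y) Y (γ t)) (s := univ) (C := C)
      (fun x _ => (hg x).hasDerivWithinAt) (fun x _ => hC _ trivial) convex_univ
      (mem_univ s) (mem_univ t)
    simpa [Real.norm_eq_abs] using this
  have hmono : Monotone (fun s => h (γ s)) :=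
    monotone_of_deriv_nonneg (fun t => (hF t).differentiableAt)
      (fun t => by rw [(hF t).deriv]; exact hpos _)
  obtain ⟨B, hB⟩ := isCompact_univ.exists_bound_of_continuousOn (hh.continuous.continuousOn)
  have hbdd : BddAbove (range (fun s => h (γ s))) := by
    refine ⟨B, ?_⟩
    rintro _ ⟨s, rfl⟩
    exact (le_abs_self _).trans (hB _ trivial)
  have hlim := tendsto_atTop_ciSup hmono hbdd
  by_contra hne
  have hqpos : 0 < lieD h Y q := lt_of_le_of_ne (hpos q) (Ne.symm hne)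
  set η := lieD h Y q / 2 with hη
  have hηpos : 0 < η := by positivity
  have hopen : {x | η < lieD h Y x} ∈ 𝓝 q :=
    hu.continuous.continuousAt.eventually (lt_mem_nhds (by linarith))
  have hfreq : ∃ᶠ t in atTop, η < lieD h Y (γ t) := mapClusterPt_iff_frequently.1 hq _ hopen
  set s := η / (2 * (C + 1)) with hs
  have hspos : 0 < s := by positivity
  have hCs : C * s ≤ η / 2 := by
    rw [hs]
    have : C * (η / (2 * (C + 1))) = (C / (C + 1)) * (η / 2) := by field_simp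
    rw [this]
    have h1 : C / (C + 1) ≤ 1 := by rw [div_le_one (by linarith)]; linarith
    nlinarith
  have hlim2 : Tendsto (fun t => h (γ (t + s)) - h (γ t)) atTop (𝓝 0) := by
    have h1 := (hlim.comp (tendsto_atTop_add_const_right atTop s tendsto_id)).sub hlim
    simpa using! h1
  have hev : ∀ᶠ t in atTop, h (γ (t + s)) - h (γ t) < s * (η / 2) :=
    hlim2.eventually (gt_mem_nhds (by positivity))
  obtain ⟨t, ht1, ht2⟩ := (hfreq.and_eventually hev).exists
  have hge : s * (η / 2) ≤ h (γ (t + s)) - h (γ t) := by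
    have h1 : ∀ x ∈ interior (Icc t (t + s)), η / 2 ≤ deriv (fun s => h (γ s)) x := by
      intro x hx
      rw [interior_Icc] at hx
      rw [(hF x).deriv]
      have h2 := hlip t x
      have h3 : |x - t| ≤ s := by rw [abs_of_pos (by linarith [hx.1])]; linarith [hx.2]
      have h4 : C * |x - t| ≤ C * s := mul_le_mul_of_nonneg_left h3 hC0
      have h5 := (abs_le.1 (h2.trans (h4.trans hCs))).1
      linarith
    have h2 := Convex.mul_sub_le_image_sub_of_le_deriv (convex_Icc t (t + s))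
      (fun x _ => (hF x).continuousAt.continuousWithinAt)
      (fun x _ => (hF x).differentiableAt.differentiableWithinAt) h1 t
      (left_mem_Icc.2 (by linarith)) (t + s) (right_mem_Icc.2 (by linarith)) (by linarith)
    have h3 : η / 2 * (t + s - t) = s * (η / 2) := by ring
    linarith
  linarith

end Pool.Agent.Palis
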