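import Mathlib
import Pool.Agent.Palis.Defs
import Pool.Agent.Palis.Flow
import Pool.Agent.Palis.Dyn

open scoped Manifold ContDiff Topology
open MeasureTheory Set Filter Bundle Metric

namespace Pool.Agent.Palis

variable {E : Type} [NormedAddCommGroup E] [NormedSpace ℝ E] [FiniteDimensional ℝ E]
  [MeasurableSpace E] [BorelSpace E] {M : Type} [TopologicalSpace M] [ChartedSpace E M] [IsManifold 𝓘(ℝ, E) ∞ M]

set_option linter.unusedSectionVars false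

theorem null_mono {S T : Set M} (h : S ⊆ T) (hT : Null E T) : Null E S := fun x =>
  measure_mono_null (image_mono (inter_subset_inter_left _ h)) (hT x)

theorem null_iUnion {ι : Type} [Countable ι] {S : ι → Set M} (h : ∀ i, Null E (S i)) :
    Null E (⋃ i, S i) := fun x => by
  rw [iUnion_inter, image_iUnion]
  exact measure_iUnion_null fun i => h i x

theorem curve_unique [T2Space M] {Y : ∀ x : M, TangentSpace 𝓘(ℝ, E) x}
    (hY : ContMDiff 𝓘(ℝ, E) 𝓘(ℝ, E).tangent 1 (fun x => (⟨x, Y x⟩ : TangentBundle 𝓘(ℝ, E) M)))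
    {γ γ' : ℝ → M} (h : IsMIntegralCurve γ Y) (h' : IsMIntegralCurve γ' Y) (h0 : γ 0 = γ' 0) :
    γ = γ' := by
  have : IsManifold 𝓘(ℝ, E) 1 M := IsManifold.of_le (n := ∞) (by norm_cast)
  exact isMIntegralCurve_Ioo_eq_of_contMDiff_boundaryless (t₀ := 0) hY h h' h0

theorem cluster_in_one [CompactSpace M] [T2Space M] {γ : ℝ → M} (hγ : Continuous γ) {ι : Type}
    [Finite ι] {K : ι → Set M} (hK : ∀ i, IsClosed (K i)) (hd : Pairwise (Function.onFun Disjoint K))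
    (hc : ∀ q, MapClusterPt q atTop γ → q ∈ ⋃ i, K i) :
    ∃ i, ∀ q, MapClusterPt q atTop γ → q ∈ K i := by
  obtain ⟨q0, -, hq0⟩ := isCompact_univ.exists_mapClusterPt (f := atTop) (u := γ) (by simp)
  obtain ⟨i0, hi0⟩ := mem_iUnion.1 (hc q0 hq0)
  refine ⟨i0, ?_⟩
  set B : Set M := ⋃ i : {i : ι // i ≠ i0}, K i with hB
  have hBc : IsClosed B := isClosed_iUnion_of_finite fun i => hK _
  have hAB : Disjoint (K i0) B := by
    rw [hB, disjoint_iUnion_right]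
    rintro ⟨i, hi⟩
    exact hd (Ne.symm hi)
  obtain ⟨U, V, hU, hV, hAU, hBV, hUV⟩ := normal_separation (hK i0) hBc hAB
  have hAll : ∀ q, MapClusterPt q atTop γ → q ∈ K i0 ∨ q ∈ B := by
    intro q hq
    obtain ⟨i, hi⟩ := mem_iUnion.1 (hc q hq)
    by_cases h : i = i0
    · left; rw [← h]; exact hi
    · right; exact mem_iUnion.2 ⟨⟨i, h⟩, hi⟩
  have hev : ∀ᶠ t in atTop, γ t ∈ U ∪ V := by
    by_contra hne
    rw [Filter.not_eventually] at hne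
    have hcomp : IsCompact (U ∪ V)ᶜ := (hU.union hV).isClosed_compl.isCompact
    obtain ⟨q, hq, hq'⟩ := hcomp.exists_mapClusterPt_of_frequently (f := γ) (l := atTop) hne
    rcases hAll q hq' with h | h
    · exact hq (Or.inl (hAU h))
    · exact hq (Or.inr (hBV h))
  obtain ⟨T, hT⟩ := eventually_atTop.1 hev
  have hpre : IsPreconnected (γ '' Ici T) := (isPreconnected_Ici).image _ hγ.continuousOn
  have hsub : γ '' Ici T ⊆ U ∪ V := by
    rintro _ ⟨t, ht, rfl⟩; exact hT t ht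
  have hfreq : ∃ᶠ t in atTop, γ t ∈ U := mapClusterPt_iff_frequently.1 hq0 U (hU.mem_nhds (hAU hi0))
  obtain ⟨t, htU, ht⟩ := (hfreq.and_eventually (eventually_ge_atTop T)).exists
  have hsubU : γ '' Ici T ⊆ U := hpre.subset_left_of_subset_union hU hV hUV hsub ⟨γ t, ⟨t, ht, rfl⟩, htU⟩
  intro q hq
  rcases hAll q hq with h | h
  · exact h
  exfalso
  have h2 : ∃ᶠ t in atTop, γ t ∈ V := mapClusterPt_iff_frequently.1 hq V (hV.mem_nhds (hBV h))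
  obtain ⟨s, hs1, hs2⟩ := (h2.and_eventually (eventually_ge_atTop T)).exists
  exact disjoint_left.1 hUV (hsubU ⟨s, hs2, rfl⟩) hs1

theorem exists_test_function [T2Space M] (p : M) (v : TangentSpace 𝓘(ℝ, E) p) (hv : v ≠ 0) :
    ∃ g : M → ℝ, ContMDiff 𝓘(ℝ, E) 𝓘(ℝ, ℝ) ∞ g ∧ diff E g p v ≠ 0 := by
  have : IsManifold 𝓘(ℝ, E) 1 M := IsManifold.of_le (n := ∞) (by norm_cast)
  obtain ⟨f⟩ : Nonempty (SmoothBumpFunction 𝓘(ℝ, E) p) := inferInstance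
  obtain ⟨ℓ, hℓ⟩ : ∃ ℓ : E →L[ℝ] ℝ, ℓ (show E from v) ≠ 0 :=
    SeparatingDual.exists_ne_zero (R := ℝ) (V := E) (x := (show E from v)) hv
  refine ⟨fun x => f x * ℓ (extChartAt 𝓘(ℝ, E) p x), ?_, ?_⟩
  · refine f.contMDiff_smul (g := fun x => ℓ (extChartAt 𝓘(ℝ, E) p x)) ?_
    have h1 : ContMDiffOn 𝓘(ℝ, E) 𝓘(ℝ, E) ∞ (extChartAt 𝓘(ℝ, E) p) (chartAt E p).source :=
      contMDiffOn_extChartAt
    have h2 : ContMDiff 𝓘(ℝ, E) 𝓘(ℝ, ℝ) ∞ (fun y : E => ℓ y) := ℓ.contMDiff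
    exact h2.comp_contMDiffOn h1
  · have hev : (fun x => f x * ℓ (extChartAt 𝓘(ℝ, E) p x)) =ᶠ[𝓝 p]
        fun x => ℓ (extChartAt 𝓘(ℝ, E) p x) := by
      filter_upwards [f.eventuallyEq_one] with x hx
      have : f x = 1 := hx
      rw [this, one_mul]
    have h1 : HasMFDerivAt 𝓘(ℝ, E) 𝓘(ℝ, E) (extChartAt 𝓘(ℝ, E) p) p
        (mfderiv 𝓘(ℝ, E) 𝓘(ℝ, E) (extChartAt 𝓘(ℝ, E) p) p) :=
      (mdifferentiableAt_extChartAt (mem_chart_source _ p)).hasMFDerivAt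
    have h2 : HasMFDerivAt 𝓘(ℝ, E) 𝓘(ℝ, ℝ) (fun y : E => ℓ y) (extChartAt 𝓘(ℝ, E) p p)
        (ℓ : E →L[ℝ] ℝ) := ℓ.hasMFDerivAt
    have h3 := (h2.comp p h1).mfderiv
    have h4 : diff E (fun x => f x * ℓ (extChartAt 𝓘(ℝ, E) p x)) p =
        mfderiv 𝓘(ℝ, E) 𝓘(ℝ, ℝ) (fun x => ℓ (extChartAt 𝓘(ℝ, E) p x)) p := hev.mfderiv_eq
    have h5 : mfderiv 𝓘(ℝ, E) 𝓘(ℝ, ℝ) (fun x => ℓ (extChartAt 𝓘(ℝ, E) p x)) p =
        (ℓ : E →L[ℝ] ℝ).comp (mfderiv 𝓘(ℝ, E) 𝓘(ℝ, E) (extChartAt 𝓘(ℝ, E) p) p) := h3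
    rw [h4, h5, mfderiv_extChartAt_self]
    exact hℓ

theorem zero_of_tendsto [T2Space M] {Y : ∀ x : M, TangentSpace 𝓘(ℝ, E) x}
    (hY : ContMDiff 𝓘(ℝ, E) 𝓘(ℝ, E).tangent 1 (fun x => (⟨x, Y x⟩ : TangentBundle 𝓘(ℝ, E) M)))
    {γ : ℝ → M} (hγ : IsMIntegralCurve γ Y) {p : M} (hp : Tendsto γ atTop (𝓝 p)) : Y p = 0 := by
  by_contra hne
  obtain ⟨g, hg, hgp⟩ := exists_test_function p (Y p) hne
  have hu : ContMDiff 𝓘(ℝ, E) 𝓘(ℝ, ℝ) 1 (lieD g Y) :=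
    contMDiff_lieD (m := ∞) hg (by norm_cast) hY
  have hder : ∀ t, HasDerivAt (fun s => g (γ s)) (lieD g Y (γ t)) t := fun t =>
    hasDerivAt_comp_curve (hg.of_le (by norm_cast)) hγ t
  have h1 : Tendsto (fun t => lieD g Y (γ t)) atTop (𝓝 (lieD g Y p)) :=
    (hu.continuous.tendsto p).comp hp
  have h2 : Tendsto (fun t => g (γ (t + 1)) - g (γ t)) atTop (𝓝 0) := by
    have h3 : Tendsto (fun t => g (γ t)) atTop (𝓝 (g p)) := (hg.continuous.tendsto p).comp hp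
    have h4 := (h3.comp (tendsto_atTop_add_const_right atTop (1:ℝ) tendsto_id)).sub h3
    simpa using! h4
  have h3 : ∀ t : ℝ, ∃ s ∈ Ioo t (t + 1), lieD g Y (γ s) = g (γ (t + 1)) - g (γ t) := by
    intro t
    obtain ⟨s, hs, hs'⟩ := exists_hasDerivAt_eq_slope (fun s => g (γ s)) (fun s => lieD g Y (γ s))
      (show t < t + 1 by linarith) (fun x _ => (hder x).continuousAt.continuousWithinAt)
      (fun x _ => hder x)
    refine ⟨s, hs, ?_⟩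
    rw [hs']
    simp
  choose s hs hs' using h3
  have h4 : Tendsto s atTop atTop := tendsto_atTop_mono (fun t => (hs t).1.le) tendsto_id
  have h5 : Tendsto (fun t => lieD g Y (γ (s t))) atTop (𝓝 (lieD g Y p)) := h1.comp h4
  have h6 : (fun t => lieD g Y (γ (s t))) = fun t => g (γ (t + 1)) - g (γ t) := funext hs'
  rw [h6] at h5
  exact hgp (tendsto_nhds_unique h5 h2)

theorem curve_const [T2Space M] {Y : ∀ x : M, TangentSpace 𝓘(ℝ, E) x}
    (hY : ContMDiff 𝓘(ℝ, E) 𝓘(ℝ, E).tangent 1 (fun x => (⟨x, Y x⟩ : TangentBundle 𝓘(ℝ, E) M)))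
    {q : M} (hq : Y q = 0) {γ : ℝ → M} (hγ : IsMIntegralCurve γ Y) (h0 : γ 0 = q) (t : ℝ) :
    γ t = q := by
  have h1 : IsMIntegralCurve (fun _ : ℝ => q) Y := isMIntegralCurve_const hq
  have := curve_unique hY hγ h1 h0
  rw [this]

theorem null_empty : Null E (∅ : Set M) := fun x => by simp

/-- a singleton is either an equilibrium or has empty basin -/
theorem singleton_piece [CompactSpace M] [T2Space M] {Y : ∀ x : M, TangentSpace 𝓘(ℝ, E) x}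
    (hY : ContMDiff 𝓘(ℝ, E) 𝓘(ℝ, E).tangent 1 (fun x => (⟨x, Y x⟩ : TangentBundle 𝓘(ℝ, E) M))) (q : M) :
    (Invariant E Y {q} ∧ Transitive E Y {q}) ∨ Null E (basin E Y {q}) := by
  by_cases hq : Y q = 0
  · left
    refine ⟨fun γ hγ h0 t => curve_const hY hq hγ h0 t, fun _ => q, isMIntegralCurve_const hq, rfl, ?_⟩
    rintro _ rfl
    exact subset_closure ⟨0, self_mem_Ici, rfl⟩
  · right
    refine null_mono (T := ∅) ?_ null_empty
    rintro p ⟨⟨γ, h0, hγ⟩, hsub⟩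
    apply hq
    refine zero_of_tendsto hY hγ ?_
    exact isCompact_univ.tendsto_nhds_of_unique_mapClusterPt (Eventually.of_forall fun _ => trivial)
      (fun y _ hy => hsub ⟨γ, h0, hγ, hy⟩)

theorem finitelyMany_of_lyapunov [CompactSpace M] [T2Space M] {h : M → ℝ}
    {Y : ∀ x : M, TangentSpace 𝓘(ℝ, E) x}
    (hh : ContMDiff 𝓘(ℝ, E) 𝓘(ℝ, ℝ) 2 h)
    (hY : ContMDiff 𝓘(ℝ, E) 𝓘(ℝ, E).tangent 1 (fun x => (⟨x, Y x⟩ : TangentBundle 𝓘(ℝ, E) M)))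
    (hpos : ∀ x, 0 ≤ lieD h Y x) {ι : Type} [Finite ι] (K : ι → Set M) (hK : ∀ i, IsClosed (K i))
    (hd : Pairwise (Function.onFun Disjoint K))
    (hcover : {x | lieD h Y x = 0} ⊆ ⋃ i, K i)
    (hpiece : ∀ i, (Invariant E Y (K i) ∧ Transitive E Y (K i)) ∨ Null E (basin E Y (K i))) :
    FinitelyManyAttractors E Y := by
  have : IsManifold 𝓘(ℝ, E) 1 M := IsManifold.of_le (n := ∞) (by norm_cast)
  have hall : ∀ p : M, ∃ i, p ∈ basin E Y (K i) := by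
    intro p
    obtain ⟨γ, h0, hγ⟩ := exists_global hY p
    obtain ⟨i, hi⟩ := cluster_in_one hγ.continuous hK hd
      (fun q hq => hcover (omega_subset_zero hh hY hpos hγ hq))
    refine ⟨i, ⟨γ, h0, hγ⟩, ?_⟩
    rintro q ⟨γ', h0', hγ', hq⟩
    have : γ = γ' := curve_unique hY hγ hγ' (by rw [h0, h0'])
    rw [← this] at hq
    exact hi q hq
  refine ⟨{Λ | ∃ i, Λ = K i ∧ ¬ Null E (basin E Y (K i))}, ?_, ?_, ?_⟩
  · refine (Set.finite_range K).subset ?_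
    rintro _ ⟨i, rfl, -⟩
    exact ⟨i, rfl⟩
  · rintro _ ⟨i, rfl, hi⟩
    have h1 := (hpiece i).resolve_right hi
    exact ⟨h1.1, h1.2, hi⟩
  · refine null_mono (T := ⋃ i : {i : ι // Null E (basin E Y (K i))}, basin E Y (K i)) ?_
      (null_iUnion fun i => i.2)
    intro p hp
    obtain ⟨i, hi⟩ := hall p
    by_cases hn : Null E (basin E Y (K i))
    · exact mem_iUnion.2 ⟨⟨i, hn⟩, hi⟩
    · exfalso
      apply hp
      simp only [mem_iUnion]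
      exact ⟨K i, ⟨i, rfl, hn⟩, hi⟩

end Pool.Agent.Palis
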