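import Mathlib
import Pool.Agent.Palis.Defs

open scoped Manifold ContDiff Topology
open MeasureTheory Set Filter Bundle Metric

namespace Pool.Agent.Palis

variable {E : Type} [NormedAddCommGroup E] [NormedSpace ℝ E] [FiniteDimensional ℝ E]
  {M : Type} [TopologicalSpace M] [ChartedSpace E M] [IsManifold 𝓘(ℝ, E) ∞ M]

set_option linter.unusedSectionVars false

theorem localRep_contDiffOn {k : ℕ∞} {X : ∀ x : M, TangentSpace 𝓘(ℝ, E) x}
    (hX : ContMDiff 𝓘(ℝ, E) 𝓘(ℝ, E).tangent k (fun x => (⟨x, X x⟩ : TangentBundle 𝓘(ℝ, E) M)))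
    (x₀ : M) : ContDiffOn ℝ k (localRep E X x₀) (extChartAt 𝓘(ℝ, E) x₀).target := by
  have hM1 : IsManifold 𝓘(ℝ, E) ((k : ℕ∞ω) + 1) M := IsManifold.of_le (n := ∞) (by
    exact_mod_cast (le_top : k + 1 ≤ ⊤))
  have hM2 : IsManifold 𝓘(ℝ, E) 1 M := IsManifold.of_le (n := ∞) (by norm_cast)
  have hb : ContMDiffVectorBundle (k : ℕ∞ω) E (TangentSpace 𝓘(ℝ, E) : M → Type) 𝓘(ℝ, E) := inferInstance
  set e := trivializationAt E (TangentSpace 𝓘(ℝ, E) : M → Type) x₀ with he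
  have hbase : e.baseSet = (extChartAt 𝓘(ℝ, E) x₀).source := by
    rw [he, TangentBundle.trivializationAt_baseSet, extChartAt_source]
  have h1 : ContMDiffOn 𝓘(ℝ, E) 𝓘(ℝ, E) k (fun x => (e ⟨x, X x⟩).2) e.baseSet := by
    have := hX.contMDiffOn (s := e.baseSet)
    exact (e.contMDiffOn_section_baseSet_iff (n := (k : ℕ∞ω)) (IB := 𝓘(ℝ, E)) (s := X)).1 this
  have h2 : ContMDiffOn 𝓘(ℝ, E) 𝓘(ℝ, E) k (extChartAt 𝓘(ℝ, E) x₀).symm (extChartAt 𝓘(ℝ, E) x₀).target :=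
    (contMDiffOn_extChartAt_symm (n := ∞) x₀).of_le (by exact_mod_cast (le_top : k ≤ ⊤))
  have h3 := h1.comp h2 (fun y hy => by
    rw [hbase]; exact (extChartAt 𝓘(ℝ, E) x₀).map_target hy)
  rw [contMDiffOn_iff_contDiffOn] at h3
  refine h3.congr (fun y hy => ?_)
  have hs : (extChartAt 𝓘(ℝ, E) x₀).symm y ∈ (extChartAt 𝓘(ℝ, E) x₀).source :=
    (extChartAt 𝓘(ℝ, E) x₀).map_target hy
  have hs' : (extChartAt 𝓘(ℝ, E) x₀).symm y ∈ (chartAt E x₀).source := by
    rwa [extChartAt_source] at hs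
  have h4 := TangentBundle.continuousLinearMapAt_trivializationAt (I := 𝓘(ℝ, E)) hs'
  have h5 : localRep E X x₀ y = (e.continuousLinearMapAt ℝ ((extChartAt 𝓘(ℝ, E) x₀).symm y))
      (X ((extChartAt 𝓘(ℝ, E) x₀).symm y)) :=
    congrArg (fun L => L (X ((extChartAt 𝓘(ℝ, E) x₀).symm y))) h4.symm
  rw [h5, Trivialization.continuousLinearMapAt_apply, Trivialization.linearMapAt_apply,
    if_pos (by rw [hbase]; exact hs)]
  rfl

theorem localRep_add (X Y : ∀ x : M, TangentSpace 𝓘(ℝ, E) x) (x₀ : M) :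
    localRep E (fun z => X z + Y z) x₀ = localRep E X x₀ + localRep E Y x₀ := by
  ext1 y
  exact map_add _ _ _

theorem localRep_smul (c : ℝ) (X : ∀ x : M, TangentSpace 𝓘(ℝ, E) x) (x₀ : M) :
    localRep E (fun z => c • X z) x₀ = c • localRep E X x₀ := by
  ext1 y
  exact map_smul _ _ _

theorem localRep_contDiffAt {r : ℕ∞} (X : VField E M r) (x₀ : M) {k : ℕ} (hk : (k : ℕ∞) ≤ r)
    {y : E} (hy : y ∈ (extChartAt 𝓘(ℝ, E) x₀).target) :
    ContDiffAt ℝ k (localRep E X x₀) y := by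
  have h1 := localRep_contDiffOn (k := r) X.contMDiff x₀
  have h2 : (extChartAt 𝓘(ℝ, E) x₀).target ∈ 𝓝 y := (isOpen_extChartAt_target x₀).mem_nhds hy
  exact (h1.contDiffAt h2).of_le (by exact_mod_cast hk)

/-- the `k`-th derivative of the local representation at a point, as a linear map of the field -/
noncomputable def jetMap {r : ℕ∞} (x₀ : M) {k : ℕ} (hk : (k : ℕ∞) ≤ r) {y : E}
    (hy : y ∈ (extChartAt 𝓘(ℝ, E) x₀).target) :
    VField E M r →ₗ[ℝ] (E [×k]→L[ℝ] E) where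
  toFun X := iteratedFDeriv ℝ k (localRep E X x₀) y
  map_add' X Y := by
    have : localRep E (X + Y : VField E M r) x₀ = localRep E X x₀ + localRep E Y x₀ :=
      localRep_add _ _ _
    rw [this, iteratedFDeriv_add_apply (localRep_contDiffAt X x₀ hk hy) (localRep_contDiffAt Y x₀ hk hy)]
  map_smul' c X := by
    have : localRep E (c • X : VField E M r) x₀ = c • localRep E X x₀ := localRep_smul _ _ _
    rw [this, iteratedFDeriv_const_smul_apply (localRep_contDiffAt X x₀ hk hy)]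
    rfl

theorem jetMap_apply {r : ℕ∞} (x₀ : M) {k : ℕ} (hk : (k : ℕ∞) ≤ r) {y : E}
    (hy : y ∈ (extChartAt 𝓘(ℝ, E) x₀).target) (X : VField E M r) :
    jetMap x₀ hk hy X = iteratedFDeriv ℝ k (localRep E X x₀) y := rfl

theorem jet_continuousOn {r : ℕ∞} (x₀ : M) {k : ℕ} (hk : (k : ℕ∞) ≤ r) (X : VField E M r)
    {K : Set M} (hKs : K ⊆ (extChartAt 𝓘(ℝ, E) x₀).source) :
    ContinuousOn (fun x => ‖iteratedFDeriv ℝ k (localRep E X x₀) (extChartAt 𝓘(ℝ, E) x₀ x)‖) K := by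
  have h1 := localRep_contDiffOn (k := r) X.contMDiff x₀
  have h2 : ContinuousOn (iteratedFDeriv ℝ k (localRep E X x₀)) (extChartAt 𝓘(ℝ, E) x₀).target := by
    have h3 := h1.continuousOn_iteratedFDerivWithin (m := k) (by exact_mod_cast hk)
      (isOpen_extChartAt_target x₀).uniqueDiffOn
    exact h3.congr (fun y hy => (iteratedFDerivWithin_of_isOpen k (isOpen_extChartAt_target x₀) hy).symm)
  have h3 : ContinuousOn (extChartAt 𝓘(ℝ, E) x₀) K := (continuousOn_extChartAt x₀).mono hKs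
  exact (h2.comp h3 (fun x hx => (extChartAt 𝓘(ℝ, E) x₀).map_source (hKs hx))).norm

theorem tendsto_comb {r : ℕ∞} {ι : Type} [Fintype ι] (X : VField E M r) (V : ι → VField E M r) :
    Tendsto (fun c : ι → ℝ => X + ∑ i, c i • V i) (𝓝 0) (@nhds _ (crTopology E M r) X) := by
  unfold crTopology
  rw [TopologicalSpace.tendsto_nhds_generateFrom_iff]
  rintro _ ⟨X₀, x₀, K, k, ε, hK, hKs, hk, rfl⟩ hX
  rcases K.eq_empty_or_nonempty with rfl | hne
  · filter_upwards with c x hx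
    exact absurd hx (notMem_empty x)
  have hX' : ∀ x ∈ K, ‖iteratedFDeriv ℝ k (localRep E (X - X₀ : VField E M r) x₀)
      (extChartAt 𝓘(ℝ, E) x₀ x)‖ < ε := hX
  obtain ⟨x₁, hx₁, hmax⟩ := hK.exists_isMaxOn hne (jet_continuousOn x₀ hk (X - X₀) hKs)
  set a := ‖iteratedFDeriv ℝ k (localRep E (X - X₀ : VField E M r) x₀)
      (extChartAt 𝓘(ℝ, E) x₀ x₁)‖ with ha
  have haε : a < ε := hX' x₁ hx₁
  have hB : ∀ i, ∃ B, ∀ x ∈ K, ‖iteratedFDeriv ℝ k (localRep E (V i) x₀) (extChartAt 𝓘(ℝ, E) x₀ x)‖ ≤ B := by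
    intro i
    obtain ⟨B, hB⟩ := hK.exists_bound_of_continuousOn (jet_continuousOn x₀ hk (V i) hKs)
    exact ⟨B, fun x hx => by simpa using hB x hx⟩
  choose B hB using hB
  have hcont : Continuous (fun c : ι → ℝ => ∑ i, |c i| * B i) := by fun_prop
  have hev : ∀ᶠ c : ι → ℝ in 𝓝 0, ∑ i, |c i| * B i < ε - a := by
    apply hcont.continuousAt.eventually (gt_mem_nhds _)
    simp; exact haε
  filter_upwards [hev] with c hc x hx
  have hy : extChartAt 𝓘(ℝ, E) x₀ x ∈ (extChartAt 𝓘(ℝ, E) x₀).target :=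
    (extChartAt 𝓘(ℝ, E) x₀).map_source (hKs hx)
  have h1 : iteratedFDeriv ℝ k (localRep E (fun z => (X + ∑ i, c i • V i : VField E M r) z - X₀ z) x₀)
      (extChartAt 𝓘(ℝ, E) x₀ x) = jetMap x₀ hk hy ((X + ∑ i, c i • V i) - X₀) := rfl
  rw [h1]
  have h2 : jetMap x₀ hk hy ((X + ∑ i, c i • V i) - X₀) = jetMap x₀ hk hy (X - X₀) +
      ∑ i, c i • jetMap x₀ hk hy (V i) := by
    rw [add_sub_right_comm, map_add, map_sum]
    simp only [map_smul]
  rw [h2]
  calc ‖jetMap x₀ hk hy (X - X₀) + ∑ i, c i • jetMap x₀ hk hy (V i)‖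
      ≤ ‖jetMap x₀ hk hy (X - X₀)‖ + ∑ i, |c i| * B i := by
        refine (norm_add_le _ _).trans (add_le_add le_rfl ((norm_sum_le _ _).trans ?_))
        refine Finset.sum_le_sum fun i _ => ?_
        rw [norm_smul, Real.norm_eq_abs]
        exact mul_le_mul_of_nonneg_left (hB i x hx) (abs_nonneg _)
    _ ≤ a + ∑ i, |c i| * B i := add_le_add (hmax hx) le_rfl
    _ < ε := by linarith

end Pool.Agent.Palis
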