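import Mathlib
import Pool.Agent.Palis.Defs

open scoped Manifold ContDiff Topology
open MeasureTheory Set Filter Metric

namespace Pool.Agent.Palis

variable {E : Type} [NormedAddCommGroup E] [NormedSpace ℝ E] [FiniteDimensional ℝ E]

/-- a fixed basis of `E` -/
noncomputable abbrev bas (E : Type) [NormedAddCommGroup E] [NormedSpace ℝ E]
    [FiniteDimensional ℝ E] : Module.Basis (Fin (Module.finrank ℝ E)) ℝ E := Module.finBasis ℝ E

/-- coordinate functionals -/
noncomputable def crd (k : Fin (Module.finrank ℝ E)) : E →L[ℝ] ℝ :=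
  LinearMap.toContinuousLinearMap ((bas E).coord k)

theorem crd_bas (k l : Fin (Module.finrank ℝ E)) : crd k (bas E l) = if l = k then 1 else 0 := by
  show (bas E).coord k (bas E l) = _
  rw [Module.Basis.coord_apply, Module.Basis.repr_self, Finsupp.single_apply]

theorem sum_crd (v : E) : ∑ k, crd k v • bas E k = v := (bas E).sum_repr v

/-- linear functional to vector of its coefficients -/
noncomputable def coef (E : Type) [NormedAddCommGroup E] [NormedSpace ℝ E]
    [FiniteDimensional ℝ E] : (E →L[ℝ] ℝ) →L[ℝ] E :=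
  ∑ k, (ContinuousLinearMap.apply ℝ ℝ (bas E k)).smulRight (bas E k)

theorem coef_apply (ℓ : E →L[ℝ] ℝ) : coef E ℓ = ∑ k, ℓ (bas E k) • bas E k := by
  simp [coef]

theorem coef_eq_zero {ℓ : E →L[ℝ] ℝ} (h : coef E ℓ = 0) : ℓ = 0 := by
  rw [coef_apply] at h
  have h1 := Fintype.linearIndependent_iff.1 (bas E).linearIndependent (fun k => ℓ (bas E k)) h
  have h2 : (ℓ : E →ₗ[ℝ] ℝ) = 0 := (bas E).ext fun k => h1 k
  ext x
  exact congrArg (fun f => f x) h2

theorem coef_crd (k : Fin (Module.finrank ℝ E)) : coef E (crd k) = bas E k := by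
  rw [coef_apply]
  simp [crd_bas]

/-- gradient -/
noncomputable def grad (f : E → ℝ) (y : E) : E := coef E (fderiv ℝ f y)

theorem grad_eq_zero_iff {f : E → ℝ} {y : E} : grad f y = 0 ↔ fderiv ℝ f y = 0 :=
  ⟨fun h => coef_eq_zero h, fun h => by rw [grad, h, map_zero]⟩

variable {ι : Type} [Fintype ι]

/-- the perturbed function -/
noncomputable def gfun (u0 : E → ℝ) (u : ι → Fin (Module.finrank ℝ E) → E → ℝ) (a : ι → E) (y : E) : ℝ :=
  u0 y - ∑ j, ∑ k, crd k (a j) * u j k y

section C2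
variable {Ω : Set E} {u0 : E → ℝ} {u : ι → Fin (Module.finrank ℝ E) → E → ℝ}

theorem grad_gfun (hΩ : IsOpen Ω) (h0 : ContDiffOn ℝ 2 u0 Ω) (hu : ∀ j k, ContDiffOn ℝ 2 (u j k) Ω)
    (a : ι → E) {y : E} (hy : y ∈ Ω) :
    grad (gfun u0 u a) y = grad u0 y - ∑ j, ∑ k, crd k (a j) • grad (u j k) y := by
  have hd0 : HasFDerivAt u0 (fderiv ℝ u0 y) y :=
    (((h0.contDiffAt (hΩ.mem_nhds hy)).differentiableAt (by norm_num))).hasFDerivAt
  have hd : ∀ j k, HasFDerivAt (u j k) (fderiv ℝ (u j k) y) y := fun j k =>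
    ((((hu j k).contDiffAt (hΩ.mem_nhds hy)).differentiableAt (by norm_num))).hasFDerivAt
  have h1 : HasFDerivAt (gfun u0 u a)
      (fderiv ℝ u0 y - ∑ j, ∑ k, crd k (a j) • fderiv ℝ (u j k) y) y := by
    refine hd0.sub ?_
    refine HasFDerivAt.fun_sum fun j _ => HasFDerivAt.fun_sum fun k _ => ?_
    exact (hd j k).const_mul (crd k (a j))
  rw [grad, h1.fderiv, map_sub, map_sum]
  simp only [map_sum, map_smul]
  rfl

theorem grad_contDiffOn (hΩ : IsOpen Ω) {f : E → ℝ} (hf : ContDiffOn ℝ 2 f Ω) :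
    ContDiffOn ℝ 1 (grad f) Ω :=
  (coef E).contDiff.comp_contDiffOn (hf.fderiv_of_isOpen hΩ (by norm_num))

theorem fderiv_grad_gfun (hΩ : IsOpen Ω) (h0 : ContDiffOn ℝ 2 u0 Ω)
    (hu : ∀ j k, ContDiffOn ℝ 2 (u j k) Ω) (a : ι → E) {y : E} (hy : y ∈ Ω) :
    fderiv ℝ (grad (gfun u0 u a)) y = fderiv ℝ (grad u0) y -
      ∑ j, ∑ k, crd k (a j) • fderiv ℝ (grad (u j k)) y := by
  have hev : grad (gfun u0 u a) =ᶠ[𝓝 y] fun y => grad u0 y - ∑ j, ∑ k, crd k (a j) • grad (u j k) y := by
    filter_upwards [hΩ.mem_nhds hy] with z hz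
    exact grad_gfun hΩ h0 hu a hz
  rw [hev.fderiv_eq]
  have hd0 : HasFDerivAt (grad u0) (fderiv ℝ (grad u0) y) y :=
    ((((grad_contDiffOn hΩ h0).contDiffAt (hΩ.mem_nhds hy)).differentiableAt (by norm_num))).hasFDerivAt
  have hd : ∀ j k, HasFDerivAt (grad (u j k)) (fderiv ℝ (grad (u j k)) y) y := fun j k =>
    ((((grad_contDiffOn hΩ (hu j k)).contDiffAt (hΩ.mem_nhds hy)).differentiableAt (by norm_num))).hasFDerivAt
  have h1 : HasFDerivAt (fun y => grad u0 y - ∑ j, ∑ k, crd k (a j) • grad (u j k) y)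
      (fderiv ℝ (grad u0) y - ∑ j, ∑ k, crd k (a j) • fderiv ℝ (grad (u j k)) y) y := by
    refine hd0.sub ?_
    refine HasFDerivAt.fun_sum fun j _ => HasFDerivAt.fun_sum fun k _ => ?_
    exact (hd j k).const_smul (crd k (a j))
  exact h1.fderiv

/-- the good parameters for one chart -/
def Good (K : Set E) (u0 : E → ℝ) (u : ι → Fin (Module.finrank ℝ E) → E → ℝ) : Set (ι → E) :=
  {a | ∀ y ∈ K, grad (gfun u0 u a) y = 0 → (fderiv ℝ (grad (gfun u0 u a)) y).det ≠ 0}

theorem good_isOpen (hΩ : IsOpen Ω) (h0 : ContDiffOn ℝ 2 u0 Ω)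
    (hu : ∀ j k, ContDiffOn ℝ 2 (u j k) Ω) {K : Set E} (hK : IsCompact K) (hKΩ : K ⊆ Ω) :
    IsOpen (Good K u0 u) := by
  have : CompactSpace K := isCompact_iff_compactSpace.1 hK
  have hA : ∀ f : E → ℝ, ContDiffOn ℝ 2 f Ω → Continuous (fun y : K => grad f y) := fun f hf => by
    have h1 := (grad_contDiffOn hΩ hf).continuousOn.mono hKΩ
    exact continuousOn_iff_continuous_domRestrict.1 h1
  have hB : ∀ f : E → ℝ, ContDiffOn ℝ 2 f Ω → Continuous (fun y : K => fderiv ℝ (grad f) y) := fun f hf => by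
    have h1 := ((grad_contDiffOn hΩ hf).continuousOn_fderiv_of_isOpen hΩ (by norm_num)).mono hKΩ
    exact continuousOn_iff_continuous_domRestrict.1 h1
  set F1 : (ι → E) × K → E := fun p => grad u0 p.2 - ∑ j, ∑ k, crd k (p.1 j) • grad (u j k) p.2 with hF1
  set F2 : (ι → E) × K → (E →L[ℝ] E) := fun p =>
    fderiv ℝ (grad u0) p.2 - ∑ j, ∑ k, crd k (p.1 j) • fderiv ℝ (grad (u j k)) p.2 with hF2
  have hcoord : ∀ j k, Continuous (fun p : (ι → E) × K => crd k (p.1 j)) := fun j k => by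
    exact (crd k).continuous.comp ((continuous_apply j).comp continuous_fst)
  have hF1c : Continuous F1 := by
    refine ((hA u0 h0).comp continuous_snd).sub ?_
    refine continuous_finsetSum _ fun j _ => continuous_finsetSum _ fun k _ => ?_
    exact (hcoord j k).smul ((hA _ (hu j k)).comp continuous_snd)
  have hF2c : Continuous F2 := by
    refine ((hB u0 h0).comp continuous_snd).sub ?_
    refine continuous_finsetSum _ fun j _ => continuous_finsetSum _ fun k _ => ?_
    exact (hcoord j k).smul ((hB _ (hu j k)).comp continuous_snd)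
  have hcl : IsClosed {p : (ι → E) × K | F1 p = 0 ∧ (F2 p).det = 0} :=
    (isClosed_eq hF1c continuous_const).inter
      (isClosed_eq (ContinuousLinearMap.continuous_det.comp hF2c) continuous_const)
  have hproj : IsClosed (Prod.fst '' {p : (ι → E) × K | F1 p = 0 ∧ (F2 p).det = 0}) :=
    isClosedMap_fst_of_compactSpace _ hcl
  rw [← isClosed_compl_iff]
  convert hproj using 1
  ext a
  constructor
  · intro hna
    have hna' : ∃ y ∈ K, grad (gfun u0 u a) y = 0 ∧ (fderiv ℝ (grad (gfun u0 u a)) y).det = 0 := by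
      by_contra hcon
      apply hna
      intro y hy h1 h2
      exact hcon ⟨y, hy, h1, h2⟩
    obtain ⟨y, hy, h1, h2⟩ := hna'
    refine ⟨(a, ⟨y, hy⟩), ⟨?_, ?_⟩, rfl⟩
    · rw [← h1, grad_gfun hΩ h0 hu a (hKΩ hy)]
    · rw [← h2, fderiv_grad_gfun hΩ h0 hu a (hKΩ hy)]
  · rintro ⟨⟨a', ⟨y, hy⟩⟩, ⟨h1, h2⟩, rfl⟩ hgood
    refine hgood y hy ?_ ?_
    · rw [← h1, grad_gfun hΩ h0 hu _ (hKΩ hy)]
    · rw [← h2, fderiv_grad_gfun hΩ h0 hu _ (hKΩ hy)]

theorem good_dense [MeasurableSpace E] [BorelSpace E] [DecidableEq ι] (hΩ : IsOpen Ω)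
    (h0 : ContDiffOn ℝ 2 u0 Ω)
    (hu : ∀ j k, ContDiffOn ℝ 2 (u j k) Ω) {K : Set E} (hKΩ : K ⊆ Ω)
    (i : ι) (hi : ∀ y ∈ K, ∀ k, u i k =ᶠ[𝓝 y] fun z => crd k z) : Dense (Good K u0 u) := by
  intro a
  rw [Metric.mem_closure_iff]
  intro δ hδ
  set Φ := grad (gfun u0 u a) with hΦ
  have hg2 : ContDiffOn ℝ 2 (gfun u0 u a) Ω := by
    refine h0.sub ?_
    refine ContDiffOn.sum fun j _ => ContDiffOn.sum fun k _ => ?_
    exact contDiffOn_const.mul (hu j k)
  have hΦ1 := grad_contDiffOn hΩ hg2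
  set s : Set E := {y | y ∈ K ∧ (fderiv ℝ Φ y).det = 0} with hs
  have hnull : (Measure.addHaar : Measure E) (Φ '' s) = 0 :=
    addHaar_image_eq_zero_of_det_fderivWithin_eq_zero (f' := fderiv ℝ Φ) Measure.addHaar
      (fun y hy => (((hΦ1.contDiffAt (hΩ.mem_nhds (hKΩ hy.1))).differentiableAt
        (by norm_num))).hasFDerivAt.hasFDerivWithinAt) (fun y hy => hy.2)
  have hex : ∃ v ∈ ball (0 : E) δ, v ∉ Φ '' s := by
    by_contra hcon
    push Not at hcon
    have h1 : (Measure.addHaar : Measure E) (ball (0 : E) δ) ≤ Measure.addHaar (Φ '' s) :=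
      measure_mono hcon
    rw [hnull] at h1
    exact absurd (le_antisymm h1 bot_le) (measure_ball_pos Measure.addHaar 0 hδ).ne'
  obtain ⟨v, hv, hvs⟩ := hex
  refine ⟨Function.update a i (a i + v), ?_, ?_⟩
  · intro y hy hgrad hdet
    have hnear : ∀ z ∈ Ω, (∀ k, u i k =ᶠ[𝓝 z] fun z => crd k z) →
        grad (gfun u0 u (Function.update a i (a i + v))) z = Φ z - v := by
      intro z hz hiz
      rw [hΦ, grad_gfun hΩ h0 hu _ hz, grad_gfun hΩ h0 hu _ hz]
      have hgi : ∀ k, grad (u i k) z = bas E k := by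
        intro k
        rw [grad, (hiz k).fderiv_eq]
        have : fderiv ℝ (fun z : E => crd k z) z = crd k := (crd k).fderiv
        rw [this, coef_crd]
      have hsum : ∑ j, ∑ k, crd k ((Function.update a i (a i + v)) j) • grad (u j k) z =
          ∑ j, ∑ k, crd k (a j) • grad (u j k) z + v := by
        have h1 : ∀ j, ∑ k, crd k ((Function.update a i (a i + v)) j) • grad (u j k) z =
            ∑ k, crd k (a j) • grad (u j k) z + (if j = i then v else 0) := by
          intro j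
          by_cases hj : j = i
          · subst hj
            simp only [Function.update_self, if_true, map_add, add_smul, Finset.sum_add_distrib]
            congr 1
            simp only [hgi]
            exact sum_crd v
          · simp [hj]
        simp only [h1, Finset.sum_add_distrib]
        simp
      rw [hsum]
      abel
    have hyΩ := hKΩ hy
    have h1 := hnear y hyΩ (hi y hy)
    rw [h1] at hgrad
    have h2 : grad (gfun u0 u (Function.update a i (a i + v))) =ᶠ[𝓝 y] fun z => Φ z - v := by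
      have h3 : ∀ᶠ z in 𝓝 y, ∀ k, u i k =ᶠ[𝓝 z] fun z => crd k z := by
        rw [eventually_all]
        intro k
        exact (hi y hy k).eventually_nhds
      filter_upwards [h3, hΩ.mem_nhds hyΩ] with z hz1 hz2
      exact hnear z hz2 hz1
    rw [h2.fderiv_eq, fderiv_sub_const] at hdet
    exact hvs ⟨y, ⟨hy, hdet⟩, sub_eq_zero.1 hgrad⟩
  · rw [dist_pi_lt_iff hδ]
    intro j
    by_cases hj : j = i
    · subst hj
      simp only [Function.update_self, dist_self_add_right]
      simpa using hv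
    · rw [Function.update_of_ne hj, dist_self]
      exact hδ

end C2

end Pool.Agent.Palis
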