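import Mathlib
import Pool.Agent.Palis.Defs
import Pool.Agent.Palis.Sard

open scoped Manifold ContDiff Topology
open MeasureTheory Set Filter Metric Bundle

namespace Pool.Agent.Palis

variable {E : Type} [NormedAddCommGroup E] [NormedSpace ℝ E] [FiniteDimensional ℝ E]
  {M : Type} [TopologicalSpace M] [ChartedSpace E M] [IsManifold 𝓘(ℝ, E) ∞ M]

set_option linter.unusedSectionVars false

set_option backward.isDefEq.respectTransparency false in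
/-- In a chart: a critical point of a function on `M` is one of its local representation. -/
theorem fderiv_comp_symm_eq_zero {h : M → ℝ} (hh : ContMDiff 𝓘(ℝ, E) 𝓘(ℝ, ℝ) 1 h) (c : M) {x : M}
    (hx : x ∈ (extChartAt 𝓘(ℝ, E) c).source) (hcr : mfderiv 𝓘(ℝ, E) 𝓘(ℝ, ℝ) h x = 0) :
    fderiv ℝ (fun y => h ((extChartAt 𝓘(ℝ, E) c).symm y)) (extChartAt 𝓘(ℝ, E) c x) = 0 := by
  have : IsManifold 𝓘(ℝ, E) 1 M := IsManifold.of_le (n := ∞) (by norm_cast)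
  set y := extChartAt 𝓘(ℝ, E) c x with hy
  have hyt : y ∈ (extChartAt 𝓘(ℝ, E) c).target := (extChartAt 𝓘(ℝ, E) c).map_source hx
  have hsymm : (extChartAt 𝓘(ℝ, E) c).symm y = x := (extChartAt 𝓘(ℝ, E) c).left_inv hx
  have h1 : MDifferentiableAt 𝓘(ℝ, E) 𝓘(ℝ, E) (extChartAt 𝓘(ℝ, E) c).symm y := by
    have h2 := (contMDiffOn_extChartAt_symm (I := 𝓘(ℝ, E)) (n := 1) c).contMDiffAt
      ((isOpen_extChartAt_target c).mem_nhds hyt)
    exact h2.mdifferentiableAt (by norm_num)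
  have h3 : HasMFDerivAt 𝓘(ℝ, E) 𝓘(ℝ, ℝ) h ((extChartAt 𝓘(ℝ, E) c).symm y)
      (mfderiv 𝓘(ℝ, E) 𝓘(ℝ, ℝ) h ((extChartAt 𝓘(ℝ, E) c).symm y)) :=
    ((hh _).mdifferentiableAt (by norm_num)).hasMFDerivAt
  have h4 := h3.comp y h1.hasMFDerivAt
  have h5 : mfderiv 𝓘(ℝ, E) 𝓘(ℝ, ℝ) h ((extChartAt 𝓘(ℝ, E) c).symm y) = 0 := by
    rw [hsymm]; exact hcr
  rw [h5] at h4
  have h6 := h4.hasFDerivAt.fderiv
  exact h6

theorem exists_good_functions [MeasurableSpace E] [BorelSpace E] [CompactSpace M] [T2Space M] :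
    ∃ (ι : Type) (_ : Fintype ι) (ψ : ι → Fin (Module.finrank ℝ E) → M → ℝ),
      (∀ j k, ContMDiff 𝓘(ℝ, E) 𝓘(ℝ, ℝ) ∞ (ψ j k)) ∧
      ∀ H : M → ℝ, ContMDiff 𝓘(ℝ, E) 𝓘(ℝ, ℝ) 2 H →
        Dense {a : ι → E | {x | mfderiv 𝓘(ℝ, E) 𝓘(ℝ, ℝ)
          (fun z => H z - ∑ j, ∑ k, crd k (a j) * ψ j k z) x = 0}.Finite} := by
  classical
  obtain ⟨ι, fs, -⟩ := SmoothBumpCovering.exists_isSubordinate 𝓘(ℝ, E) (M := M) (s := univ)
    (U := fun _ => univ) isClosed_univ (fun _ _ => univ_mem)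
  let _inst : Fintype ι := fs.fintype
  set ψ : ι → Fin (Module.finrank ℝ E) → M → ℝ := fun j k x => fs j x * crd k (extChartAt 𝓘(ℝ, E) (fs.c j) x) with hψ
  have hψs : ∀ j k, ContMDiff 𝓘(ℝ, E) 𝓘(ℝ, ℝ) ∞ (ψ j k) := by
    intro j k
    refine (fs j).contMDiff_smul (g := fun x => crd k (extChartAt 𝓘(ℝ, E) (fs.c j) x)) ?_
    have h1 : ContMDiffOn 𝓘(ℝ, E) 𝓘(ℝ, E) ∞ (extChartAt 𝓘(ℝ, E) (fs.c j)) (chartAt E (fs.c j)).source :=
      contMDiffOn_extChartAt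
    have h2 : ContMDiff 𝓘(ℝ, E) 𝓘(ℝ, ℝ) ∞ (fun y : E => crd k y) := (crd k).contMDiff
    exact h2.comp_contMDiffOn h1
  refine ⟨ι, inferInstance, ψ, hψs, fun H hH => ?_⟩
  -- shrink the cover
  set O : ι → Set M := fun i => {x | fs i =ᶠ[𝓝 x] 1} with hO
  have hOo : ∀ i, IsOpen (O i) := fun i => isOpen_iff_mem_nhds.2 fun x hx => hx.eventually_nhds
  have hOc : ⋃ i, O i = univ := by
    refine eq_univ_of_forall fun x => mem_iUnion.2 ⟨fs.ind x trivial, fs.eventuallyEq_one x trivial⟩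
  obtain ⟨K, hKc, hKcl, hKO⟩ := exists_iUnion_eq_closed_subset hOo (fun x => Set.toFinite _) hOc
  have hOs : ∀ i, O i ⊆ (extChartAt 𝓘(ℝ, E) (fs.c i)).source := fun i x hx =>
    fs.mem_extChartAt_source_of_eq_one (by have := hx.eq_of_nhds; simpa using this)
  set Ω : ι → Set E := fun i => (extChartAt 𝓘(ℝ, E) (fs.c i)).target with hΩ
  have hΩo : ∀ i, IsOpen (Ω i) := fun i => isOpen_extChartAt_target _
  set K' : ι → Set E := fun i => extChartAt 𝓘(ℝ, E) (fs.c i) '' K i with hK'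
  have hK'c : ∀ i, IsCompact (K' i) := fun i =>
    (hKcl i).isCompact.image_of_continuousOn ((continuousOn_extChartAt _).mono ((hKO i).trans (hOs i)))
  have hK'Ω : ∀ i, K' i ⊆ Ω i := by
    rintro i _ ⟨x, hx, rfl⟩
    exact (extChartAt 𝓘(ℝ, E) (fs.c i)).map_source (hOs i (hKO i hx))
  have hC2 : ∀ (i : ι) (f : M → ℝ), ContMDiff 𝓘(ℝ, E) 𝓘(ℝ, ℝ) 2 f →
      ContDiffOn ℝ 2 (fun y => f ((extChartAt 𝓘(ℝ, E) (fs.c i)).symm y)) (Ω i) := by
    intro i f hf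
    have h1 : ContMDiffOn 𝓘(ℝ, E) 𝓘(ℝ, E) 2 (extChartAt 𝓘(ℝ, E) (fs.c i)).symm (Ω i) :=
      (contMDiffOn_extChartAt_symm (n := ∞) _).of_le (by norm_cast)
    exact contMDiffOn_iff_contDiffOn.1 (hf.comp_contMDiffOn h1)
  set u0 : ι → E → ℝ := fun i y => H ((extChartAt 𝓘(ℝ, E) (fs.c i)).symm y) with hu0
  set u : ι → ι → Fin (Module.finrank ℝ E) → E → ℝ := fun i j k y => ψ j k ((extChartAt 𝓘(ℝ, E) (fs.c i)).symm y) with hu
  have h0s : ∀ i, ContDiffOn ℝ 2 (u0 i) (Ω i) := fun i => hC2 i H hH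
  have hus : ∀ i j k, ContDiffOn ℝ 2 (u i j k) (Ω i) := fun i j k =>
    hC2 i (ψ j k) ((hψs j k).of_le (by norm_cast))
  have hcoord : ∀ i, ∀ y ∈ K' i, ∀ k, u i i k =ᶠ[𝓝 y] fun z => crd k z := by
    rintro i _ ⟨x, hx, rfl⟩ k
    have hxs := hOs i (hKO i hx)
    have h1 : ∀ᶠ z in 𝓝 ((extChartAt 𝓘(ℝ, E) (fs.c i)).symm (extChartAt 𝓘(ℝ, E) (fs.c i) x)), fs i z = 1 := by
      rw [(extChartAt 𝓘(ℝ, E) (fs.c i)).left_inv hxs]
      exact hKO i hx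
    have h2 := (continuousAt_extChartAt_symm'' (I := 𝓘(ℝ, E)) ((extChartAt 𝓘(ℝ, E) (fs.c i)).map_source hxs)).eventually h1
    filter_upwards [h2, (hΩo i).mem_nhds (hK'Ω i ⟨x, hx, rfl⟩)] with z hz1 hz2
    show fs i ((extChartAt 𝓘(ℝ, E) (fs.c i)).symm z) *
      crd k (extChartAt 𝓘(ℝ, E) (fs.c i) ((extChartAt 𝓘(ℝ, E) (fs.c i)).symm z)) = crd k z
    rw [hz1, one_mul, (extChartAt 𝓘(ℝ, E) (fs.c i)).right_inv hz2]
  have hdense : Dense (⋂ i, Good (K' i) (u0 i) (u i)) :=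
    dense_iInter_of_isOpen
      (fun i => good_isOpen (hΩo i) (h0s i) (hus i) (hK'c i) (hK'Ω i))
      (fun i => good_dense (hΩo i) (h0s i) (hus i) (hK'Ω i) i (hcoord i))
  refine hdense.mono fun a ha => ?_
  show {x | mfderiv 𝓘(ℝ, E) 𝓘(ℝ, ℝ) (fun z => H z - ∑ j, ∑ k, crd k (a j) * ψ j k z) x = 0}.Finite
  set Ha : M → ℝ := fun z => H z - ∑ j, ∑ k, crd k (a j) * ψ j k z with hHa
  have hHas : ContMDiff 𝓘(ℝ, E) 𝓘(ℝ, ℝ) 2 Ha := by
    refine hH.sub ?_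
    refine ContMDiff.sum fun j _ => ContMDiff.sum fun k _ => ?_
    exact contMDiff_const.mul ((hψs j k).of_le (by norm_cast))
  have hloc : ∀ x : M, ∀ᶠ x' in 𝓝[≠] x, mfderiv 𝓘(ℝ, E) 𝓘(ℝ, ℝ) Ha x' ≠ 0 := by
    intro x
    have hxc : x ∈ ⋃ i, K i := by rw [hKc]; trivial
    obtain ⟨i, hxi⟩ := mem_iUnion.1 hxc
    have hxs := hOs i (hKO i hxi)
    set y := extChartAt 𝓘(ℝ, E) (fs.c i) x with hy
    have hyK : y ∈ K' i := ⟨x, hxi, rfl⟩
    have hyΩ : y ∈ Ω i := hK'Ω i hyK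
    have hg2 : ContDiffOn ℝ 2 (gfun (u0 i) (u i) a) (Ω i) := hC2 i Ha hHas
    have hg1 := grad_contDiffOn (hΩo i) hg2
    have hgood := mem_iInter.1 ha i
    have hEuc : ∀ᶠ y' in 𝓝[≠] y, grad (gfun (u0 i) (u i) a) y' ≠ 0 := by
      have hcd := hg1.contDiffAt ((hΩo i).mem_nhds hyΩ)
      by_cases hgr : grad (gfun (u0 i) (u i) a) y = 0
      · have hdet := hgood y hyK hgr
        have hfd : HasFDerivAt (grad (gfun (u0 i) (u i) a))
            (fderiv ℝ (grad (gfun (u0 i) (u i) a)) y) y :=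
          (hcd.differentiableAt (by norm_num)).hasFDerivAt
        refine hfd.eventually_ne ?_
        have hinj : Function.Injective (fderiv ℝ (grad (gfun (u0 i) (u i) a)) y) := by
          exact (LinearMap.equivOfDetNeZero
            ((fderiv ℝ (grad (gfun (u0 i) (u i) a)) y : E →L[ℝ] E) : E →ₗ[ℝ] E)
            hdet).injective
        obtain ⟨C, -, hC⟩ := (ContinuousLinearMap.toLinearMap (fderiv ℝ (grad (gfun (u0 i) (u i) a)) y)).exists_antilipschitzWith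
          (LinearMap.ker_eq_bot.2 hinj)
        exact ⟨C, hC⟩
      · exact (hcd.continuousAt.eventually_ne hgr).filter_mono nhdsWithin_le_nhds
    have htend : Tendsto (extChartAt 𝓘(ℝ, E) (fs.c i)) (𝓝[≠] x) (𝓝[≠] y) := by
      refine tendsto_nhdsWithin_iff.2 ⟨?_, ?_⟩
      · exact (continuousAt_extChartAt' (I := 𝓘(ℝ, E)) hxs).tendsto.mono_left nhdsWithin_le_nhds
      · have h1 : ∀ᶠ x' in 𝓝[≠] x, x' ∈ (extChartAt 𝓘(ℝ, E) (fs.c i)).source :=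
          ((isOpen_extChartAt_source (I := 𝓘(ℝ, E)) (fs.c i)).mem_nhds hxs |> fun h => mem_nhdsWithin_of_mem_nhds h)
        filter_upwards [h1, self_mem_nhdsWithin] with x' hx'1 hx'2 heq
        exact hx'2 ((extChartAt 𝓘(ℝ, E) (fs.c i)).injOn hx'1 hxs heq)
    have h1 : ∀ᶠ x' in 𝓝[≠] x, x' ∈ (extChartAt 𝓘(ℝ, E) (fs.c i)).source :=
      ((isOpen_extChartAt_source (I := 𝓘(ℝ, E)) (fs.c i)).mem_nhds hxs |> fun h => mem_nhdsWithin_of_mem_nhds h)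
    filter_upwards [htend.eventually hEuc, h1] with x' hx'1 hx'2 hzero
    apply hx'1
    rw [grad_eq_zero_iff]
    exact fderiv_comp_symm_eq_zero (hHas.of_le (by norm_num)) (fs.c i) hx'2 hzero
  have hloc' : ∀ x : M, ∃ U ∈ 𝓝 x, ∀ x' ∈ U, x' ≠ x → mfderiv 𝓘(ℝ, E) 𝓘(ℝ, ℝ) Ha x' ≠ 0 := by
    intro x
    have := eventually_nhdsWithin_iff.1 (hloc x)
    exact ⟨_, this, fun x' hx' hne => hx' hne⟩
  choose U hU hU' using hloc'
  obtain ⟨t, ht⟩ := CompactSpace.elim_nhds_subcover U hU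
  refine (Finset.finite_toSet t).subset fun x hx => ?_
  have : x ∈ (⊤ : Set M) := trivial
  rw [← ht] at this
  simp only [mem_iUnion] at this
  obtain ⟨j, hj, hxj⟩ := this
  by_cases h : x = j
  · rw [h]; exact hj
  · exact absurd hx (hU' j x hxj h)

end Pool.Agent.Palis
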