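import Mathlib
import Pool.Agent.Palis.Defs

open scoped Manifold ContDiff Topology
open MeasureTheory Set Filter Metric Bundle

namespace Pool.Agent.Palis

variable {E : Type} [NormedAddCommGroup E] [NormedSpace ℝ E] [FiniteDimensional ℝ E]
  {M : Type} [TopologicalSpace M] [ChartedSpace E M] [IsManifold 𝓘(ℝ, E) ∞ M]

set_option linter.unusedSectionVars false

theorem exists_spanning_fields [CompactSpace M] [T2Space M] :
    ∃ (ι : Type) (_ : Fintype ι) (W : ι → ∀ x : M, TangentSpace 𝓘(ℝ, E) x),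
      (∀ i, ContMDiff 𝓘(ℝ, E) 𝓘(ℝ, E).tangent ∞ (fun x => (⟨x, W i x⟩ : TangentBundle 𝓘(ℝ, E) M))) ∧
      ∀ (x : M) (α : TangentSpace 𝓘(ℝ, E) x →L[ℝ] ℝ), (∀ i, α (W i x) = 0) → α = 0 := by
  classical
  have : IsManifold 𝓘(ℝ, E) 1 M := IsManifold.of_le (n := ∞) (by norm_cast)
  have : IsManifold 𝓘(ℝ, E) (∞ + 1) M := IsManifold.of_le (n := ∞) (by norm_cast)
  obtain ⟨ι, fs, -⟩ := SmoothBumpCovering.exists_isSubordinate 𝓘(ℝ, E) (M := M) (s := univ)
    (U := fun _ => univ) isClosed_univ (fun _ _ => univ_mem)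
  let _inst : Fintype ι := fs.fintype
  let e : ι → Trivialization E (TotalSpace.proj : TangentBundle 𝓘(ℝ, E) M → M) := fun i =>
    trivializationAt E (TangentSpace 𝓘(ℝ, E) : M → Type) (fs.c i)
  have hbase : ∀ i, (e i).baseSet = (chartAt E (fs.c i)).source := fun i =>
    TangentBundle.trivializationAt_baseSet _
  have hmem : ∀ i, MemTrivializationAtlas (e i) := fun i => inferInstanceAs
    (MemTrivializationAtlas (trivializationAt E (TangentSpace 𝓘(ℝ, E) : M → Type) (fs.c i)))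
  have hsm : ∀ (i : ι) (v : E), ContMDiffOn 𝓘(ℝ, E) 𝓘(ℝ, E).tangent ∞
      (fun x => (⟨x, (e i).symm x v⟩ : TangentBundle 𝓘(ℝ, E) M)) (chartAt E (fs.c i)).source := by
    intro i v
    rw [← hbase i]
    refine ((e i).contMDiffOn_section_baseSet_iff (n := ∞) (IB := 𝓘(ℝ, E))
      (s := fun x => (e i).symm x v)).2 ?_
    have h1 : ContMDiffOn 𝓘(ℝ, E) 𝓘(ℝ, E) ∞ (fun _ : M => v) (e i).baseSet := contMDiffOn_const
    refine h1.congr fun x hx => ?_
    rw [(e i).apply_mk_symm hx]
  refine ⟨ι × Fin (Module.finrank ℝ E), inferInstance, fun p x => fs p.1 x • (e p.1).symm x (Module.finBasis ℝ E p.2), ?_, ?_⟩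
  · rintro ⟨i, k⟩
    have h1 : ContMDiffOn 𝓘(ℝ, E) 𝓘(ℝ, ℝ) ∞ (fs i : M → ℝ) (chartAt E (fs.c i)).source :=
      (fs i).contMDiff.contMDiffOn
    exact ContMDiffOn.smul_section_of_tsupport h1 (chartAt E (fs.c i)).open_source
      (fs i).tsupport_subset_chartAt_source (hsm i (Module.finBasis ℝ E k))
  · intro x α hα
    set i := fs.ind x trivial with hi
    have h1 : fs i x = 1 := fs.apply_ind x trivial
    have hxb : x ∈ (e i).baseSet := by
      rw [hbase]; exact fs.mem_chartAt_ind_source x trivial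
    have h2 : ∀ k, α ((e i).symmL ℝ x (Module.finBasis ℝ E k)) = 0 := by
      intro k
      have := hα (i, k)
      simp only [h1, one_smul] at this
      rw [Trivialization.symmL_apply _ hxb]; exact this
    have h3 : α ∘L ((e i).symmL ℝ x) = 0 := by
      have h4 : ((α ∘L ((e i).symmL ℝ x) : E →L[ℝ] ℝ) : E →ₗ[ℝ] ℝ) = 0 := by
        refine (Module.finBasis ℝ E).ext fun k => ?_
        simpa using h2 k
      ext v
      exact congrArg (fun f => f v) h4
    ext v
    have h5 : (e i).symmL ℝ x ((e i).continuousLinearMapAt ℝ x v) = v :=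
      (e i).symmL_continuousLinearMapAt hxb v
    rw [← h5]
    exact congrArg (fun f => f ((e i).continuousLinearMapAt ℝ x v)) h3

end Pool.Agent.Palis
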