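import Mathlib
import Pool.Agent.Palis.Defs
import Pool.Agent.Palis.Flow
import Pool.Agent.Palis.Dyn
import Pool.Agent.Palis.Fin
import Pool.Agent.Palis.Topo
import Pool.Agent.Palis.Sard
import Pool.Agent.Palis.Morse
import Pool.Agent.Palis.Span

open scoped Manifold ContDiff Topology
open MeasureTheory Set Filter Metric Bundle

namespace Pool.Agent.Palis

variable {E : Type} [NormedAddCommGroup E] [NormedSpace ℝ E] [FiniteDimensional ℝ E]
  [MeasurableSpace E] [BorelSpace E] {M : Type} [TopologicalSpace M] [ChartedSpace E M] [IsManifold 𝓘(ℝ, E) ∞ M]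

set_option linter.unusedSectionVars false

theorem lieD_eq (h : M → ℝ) (X : ∀ x : M, TangentSpace 𝓘(ℝ, E) x) (x : M) :
    lieD h X x = diff E h x (X x) := rfl

/-- the gradient-like form attached to a finite family of vector fields -/
noncomputable def gForm {κ : Type} [Fintype κ] (W : κ → ∀ x : M, TangentSpace 𝓘(ℝ, E) x) (x : M) :
    (TangentSpace 𝓘(ℝ, E) x →L[ℝ] ℝ) →ₗ[ℝ] TangentSpace 𝓘(ℝ, E) x where
  toFun α := ∑ i, α (W i x) • W i x
  map_add' α β := by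
    simp only [_root_.add_apply, add_smul, Finset.sum_add_distrib]
  map_smul' c α := by
    simp only [_root_.smul_apply, smul_eq_mul, mul_smul, Finset.smul_sum,
      RingHom.id_apply]

theorem gForm_pair {κ : Type} [Fintype κ] (W : κ → ∀ x : M, TangentSpace 𝓘(ℝ, E) x) (x : M)
    (α : TangentSpace 𝓘(ℝ, E) x →L[ℝ] ℝ) : α (gForm W x α) = ∑ i, (α (W i x)) ^ 2 := by
  show α (∑ i, α (W i x) • W i x) = _
  rw [map_sum]
  refine Finset.sum_congr rfl fun i _ => ?_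
  rw [map_smul, smul_eq_mul, sq]

theorem gForm_smooth {κ : Type} [Fintype κ] {W : κ → ∀ x : M, TangentSpace 𝓘(ℝ, E) x}
    (hW : ∀ i, ContMDiff 𝓘(ℝ, E) 𝓘(ℝ, E).tangent ∞ (fun x => (⟨x, W i x⟩ : TangentBundle 𝓘(ℝ, E) M)))
    (r : ℕ∞) {H : M → ℝ} (hH : ContMDiff 𝓘(ℝ, E) 𝓘(ℝ, ℝ) ((r : ℕ∞ω) + 1) H) :
    ContMDiff 𝓘(ℝ, E) 𝓘(ℝ, E).tangent r
      (fun x => (⟨x, gForm W x (diff E H x)⟩ : TangentBundle 𝓘(ℝ, E) M)) := by
  have hW' : ∀ i, ContMDiff 𝓘(ℝ, E) 𝓘(ℝ, E).tangent (r : ℕ∞ω)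
      (fun x => (⟨x, W i x⟩ : TangentBundle 𝓘(ℝ, E) M)) := fun i =>
    (hW i).of_le (by exact_mod_cast (le_top : r ≤ ⊤))
  refine ContMDiff.sum_section (t := fun i x => diff E H x (W i x) • W i x) fun i _ => ?_
  exact ContMDiff.smul_section (contMDiff_lieD hH le_rfl (hW' i)) (hW' i)

/-- Dynamics of `A dH` for definite `A` and `H` with finitely many critical points. -/
theorem dynamics [CompactSpace M] [T2Space M] {Y : ∀ x : M, TangentSpace 𝓘(ℝ, E) x} {H : M → ℝ}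
    (hY : ContMDiff 𝓘(ℝ, E) 𝓘(ℝ, E).tangent 1 (fun x => (⟨x, Y x⟩ : TangentBundle 𝓘(ℝ, E) M)))
    (hH : ContMDiff 𝓘(ℝ, E) 𝓘(ℝ, ℝ) 2 H)
    (hpos : ∀ x, 0 ≤ diff E H x (Y x))
    (hdef : ∀ x, diff E H x (Y x) = 0 → diff E H x = 0)
    (hzero : ∀ x, diff E H x = 0 → Y x = 0)
    (hfin : {x : M | diff E H x = 0}.Finite) :
    AllConverge E Y ∧ FinitelyManyAttractors E Y := by
  have hfin' : Finite {x : M | diff E H x = 0} := hfin
  set K : {x : M | diff E H x = 0} → Set M := fun q => {q.1} with hK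
  have hKc : ∀ q, IsClosed (K q) := fun q => isClosed_singleton
  have hKd : Pairwise (Function.onFun Disjoint K) := by
    intro p q hpq
    simp only [Function.onFun, hK, disjoint_singleton]
    exact fun h => hpq (Subtype.ext h)
  have hcov : {x | lieD H Y x = 0} ⊆ ⋃ q, K q := by
    intro x hx
    exact mem_iUnion.2 ⟨⟨x, hdef x hx⟩, rfl⟩
  refine ⟨⟨hfin.subset fun x hx => hdef x (by
    have h1 : Y x = 0 := hx
    rw [h1, map_zero]), fun p => ?_⟩, ?_⟩
  · obtain ⟨γ, h0, hγ⟩ := exists_global hY p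
    refine ⟨⟨γ, h0, hγ⟩, ?_⟩
    obtain ⟨q, hq⟩ := cluster_in_one hγ.continuous hKc hKd
      (fun q hq => hcov (omega_subset_zero hH hY hpos hγ hq))
    refine ⟨q.1, hzero _ q.2, fun γ' h0' hγ' => ?_⟩
    have h1 : γ' = γ := curve_unique hY hγ' hγ (by rw [h0, h0'])
    rw [h1]
    exact isCompact_univ.tendsto_nhds_of_unique_mapClusterPt (Eventually.of_forall fun _ => trivial)
      (fun y _ hy => hq y hy)
  · exact finitelyMany_of_lyapunov hH hY hpos K hKc hKd hcov fun q => singleton_piece hY q.1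

/-- differentials of perturbed functions -/
theorem diff_perturb {ι : Type} [Fintype ι] {H : M → ℝ} {ψ : ι → Fin (Module.finrank ℝ E) → M → ℝ}
    (hH : ContMDiff 𝓘(ℝ, E) 𝓘(ℝ, ℝ) 1 H) (hψ : ∀ j k, ContMDiff 𝓘(ℝ, E) 𝓘(ℝ, ℝ) 1 (ψ j k))
    (a : ι → E) (x : M) :
    diff E (fun z => H z - ∑ j, ∑ k, crd k (a j) * ψ j k z) x =
      diff E H x - ∑ p : ι × Fin (Module.finrank ℝ E), crd p.2 (a p.1) • diff E (ψ p.1 p.2) x := by
  have h1 : HasMFDerivAt 𝓘(ℝ, E) 𝓘(ℝ, ℝ) H x (diff E H x) :=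
    ((hH x).mdifferentiableAt (by norm_num)).hasMFDerivAt
  have h2 : ∀ p : ι × Fin (Module.finrank ℝ E), HasMFDerivAt 𝓘(ℝ, E) 𝓘(ℝ, ℝ) (ψ p.1 p.2) x (diff E (ψ p.1 p.2) x) :=
    fun p => ((hψ p.1 p.2 x).mdifferentiableAt (by norm_num)).hasMFDerivAt
  have h3 : HasMFDerivAt 𝓘(ℝ, E) 𝓘(ℝ, ℝ) (∑ p : ι × Fin (Module.finrank ℝ E), crd p.2 (a p.1) • ψ p.1 p.2) x
      (∑ p : ι × Fin (Module.finrank ℝ E), crd p.2 (a p.1) • diff E (ψ p.1 p.2) x) :=
    HasMFDerivAt.sum (f := fun p : ι × Fin (Module.finrank ℝ E) => crd p.2 (a p.1) • ψ p.1 p.2)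
      (f' := fun p : ι × Fin (Module.finrank ℝ E) => crd p.2 (a p.1) • diff E (ψ p.1 p.2) x)
      (fun p _ => (h2 p).const_smul (crd p.2 (a p.1)))
  have h4 := h1.sub h3
  have h5 : (H - ∑ p : ι × Fin (Module.finrank ℝ E), crd p.2 (a p.1) • ψ p.1 p.2) =
      fun z => H z - ∑ j, ∑ k, crd k (a j) * ψ j k z := by
    ext z
    simp only [Pi.sub_apply, Finset.sum_apply, Pi.smul_apply, smul_eq_mul]
    rw [Fintype.sum_prod_type]
  rw [h5] at h4
  exact h4.mfderiv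

theorem closure_of_frequently {r : ℕ∞} {α : Type} {F : Filter α} {f : α → VField E M r}
    {X : VField E M r} {D : Set (VField E M r)}
    (hf : Tendsto f F (@nhds _ (crTopology E M r) X)) (hD : ∃ᶠ a in F, f a ∈ D) :
    X ∈ @closure _ (crTopology E M r) D := by
  let _inst := crTopology E M r
  exact mem_closure_of_frequently_of_tendsto hD hf

/-- LaSalle type criterion. -/
theorem lasalle [CompactSpace M] [T2Space M] {r : ℕ∞} (hr : 1 ≤ r) (X : VField E M r)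
    {h : M → ℝ} (hh : ContMDiff 𝓘(ℝ, E) 𝓘(ℝ, ℝ) ((r : ℕ∞ω) + 1) h)
    (hpos : ∀ x, 0 ≤ diff E h x (X x)) {ι : Type} [Finite ι] (K : ι → Set M)
    (hK : ∀ i, IsClosed (K i)) (hd : Pairwise (Function.onFun Disjoint K))
    (hcover : {x | diff E h x = 0} = ⋃ i, K i)
    (hpiece : ∀ i, (∃ p, K i = {p}) ∨ (Invariant E X (K i) ∧ Transitive E X (K i))) :
    X ∈ @closure _ (crTopology E M r) {Y | FinitelyManyAttractors E Y} := by
  obtain ⟨κ, _, W, hW, hspan⟩ := exists_spanning_fields (E := E) (M := M)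
  have hr1 : (1 : ℕ∞ω) ≤ r := by exact_mod_cast hr
  have hr2 : (2 : ℕ∞ω) ≤ (r : ℕ∞ω) + 1 := by
    have : (1 : ℕ∞ω) + 1 ≤ (r : ℕ∞ω) + 1 := by gcongr
    rwa [one_add_one_eq_two] at this
  let G : VField E M r := ⟨fun x => gForm W x (diff E h x), gForm_smooth hW r hh⟩
  have htend : Tendsto (fun ε : ℝ => X + ∑ _i : Unit, ε • G) (𝓝[>] 0)
      (@nhds _ (crTopology E M r) X) := by
    have h1 := (tendsto_comb X (fun _ : Unit => G)).comp
      (f := fun ε : ℝ => fun _ : Unit => ε) (x := 𝓝[>] 0) (by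
        rw [tendsto_pi_nhds]
        intro _
        exact nhdsWithin_le_nhds)
    exact h1
  refine closure_of_frequently htend (Eventually.frequently ?_)
  filter_upwards [self_mem_nhdsWithin] with ε hε
  have hε : 0 < ε := hε
  set Y : VField E M r := X + ∑ _i : Unit, ε • G with hYdef
  have hYx : ∀ x, Y x = X x + ε • gForm W x (diff E h x) := by
    intro x
    have : Y = X + ε • G := by rw [hYdef]; simp
    rw [this]; rfl
  have hYs : ContMDiff 𝓘(ℝ, E) 𝓘(ℝ, E).tangent 1 (fun x => (⟨x, Y x⟩ : TangentBundle 𝓘(ℝ, E) M)) :=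
    Y.contMDiff.of_le hr1
  have hXs : ContMDiff 𝓘(ℝ, E) 𝓘(ℝ, E).tangent 1 (fun x => (⟨x, X x⟩ : TangentBundle 𝓘(ℝ, E) M)) :=
    X.contMDiff.of_le hr1
  have hpair : ∀ x, diff E h x (Y x) = diff E h x (X x) + ε * ∑ i, (diff E h x (W i x)) ^ 2 := by
    intro x
    rw [hYx, map_add, map_smul, gForm_pair, smul_eq_mul]
  have hsum : ∀ x, 0 ≤ ∑ i, (diff E h x (W i x)) ^ 2 := fun x =>
    Finset.sum_nonneg fun i _ => sq_nonneg _
  have hYX : ∀ x, diff E h x = 0 → Y x = X x := by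
    intro x hx
    rw [hYx, hx, map_zero, smul_zero, add_zero]
  have hKcrit : ∀ i, ∀ x ∈ K i, diff E h x = 0 := by
    intro i x hx
    have : x ∈ ⋃ i, K i := mem_iUnion.2 ⟨i, hx⟩
    rw [← hcover] at this
    exact this
  have hcurve : ∀ i, Invariant E X (K i) → ∀ γ : ℝ → M, IsMIntegralCurve γ X → γ 0 ∈ K i →
      IsMIntegralCurve γ Y := by
    intro i hinv γ hγ h0 t
    rw [hYX _ (hKcrit i _ (hinv γ hγ h0 t))]
    exact hγ t
  refine finitelyMany_of_lyapunov (h := h) (hh.of_le hr2) hYs ?_ K hK hd ?_ ?_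
  · intro x
    rw [lieD_eq, hpair]
    have := hpos x
    have := hsum x
    positivity
  · intro x hx
    have hx' : diff E h x (Y x) = 0 := hx
    rw [hpair] at hx'
    have h1 := hpos x
    have h2 := hsum x
    have h3 : ∑ i, (diff E h x (W i x)) ^ 2 = 0 := by
      by_contra hne
      have h4 : 0 < ∑ i, (diff E h x (W i x)) ^ 2 := lt_of_le_of_ne h2 (Ne.symm hne)
      have : 0 < ε * ∑ i, (diff E h x (W i x)) ^ 2 := mul_pos hε h4
      linarith
    rw [Finset.sum_eq_zero_iff_of_nonneg (fun i _ => sq_nonneg _)] at h3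
    rw [← hcover]
    exact hspan x _ fun i => pow_eq_zero_iff (two_ne_zero) |>.1 (h3 i (Finset.mem_univ i))
  · intro i
    rcases hpiece i with ⟨p, hp⟩ | ⟨hinv, htr⟩
    · rw [hp]
      exact singleton_piece hYs p
    · left
      refine ⟨fun γ hγ h0 t => ?_, ?_⟩
      · obtain ⟨γ', h0', hγ'⟩ := exists_global hXs (γ 0)
        have h1 : IsMIntegralCurve γ' Y := hcurve i hinv γ' hγ' (by rw [h0']; exact h0)
        have h2 : γ = γ' := curve_unique hYs hγ h1 h0'.symm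
        rw [h2]
        exact hinv γ' hγ' (by rw [h0']; exact h0) t
      · obtain ⟨γ, hγ, h0, hdense⟩ := htr
        exact ⟨γ, hcurve i hinv γ hγ h0, h0, hdense⟩

/-- Fields `A dH` are limits of fields of the same kind all of whose orbits converge to finitely
many equilibria. -/
theorem energy_closure [CompactSpace M] [T2Space M] {r : ℕ∞} (hr : 1 ≤ r) (X : VField E M r)
    (hX : IsEnergyField E r X) :
    X ∈ @closure _ (crTopology E M r)
      {Y | IsEnergyField E r Y ∧ AllConverge E Y ∧ FinitelyManyAttractors E Y} := by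
  obtain ⟨A, H, hA, hH, hXA⟩ := hX
  obtain ⟨κ, _, W, hW, hspan⟩ := exists_spanning_fields (E := E) (M := M)
  obtain ⟨ι, _, ψ, hψ, hψd⟩ := exists_good_functions (E := E) (M := M)
  have hr1 : (1 : ℕ∞ω) ≤ r := by exact_mod_cast hr
  have hr2 : (2 : ℕ∞ω) ≤ (r : ℕ∞ω) + 1 := by
    have : (1 : ℕ∞ω) + 1 ≤ (r : ℕ∞ω) + 1 := by gcongr
    rwa [one_add_one_eq_two] at this
  have hψr : ∀ j k, ContMDiff 𝓘(ℝ, E) 𝓘(ℝ, ℝ) ((r : ℕ∞ω) + 1) (ψ j k) := fun j k =>
    (hψ j k).of_le (by exact_mod_cast (le_top : r + 1 ≤ ⊤))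
  let VA : ι × Fin (Module.finrank ℝ E) → VField E M r := fun p =>
    ⟨fun x => A x (diff E (ψ p.1 p.2) x), hA.smooth _ (hψr p.1 p.2)⟩
  let G0 : VField E M r := ⟨fun x => gForm W x (diff E H x), gForm_smooth hW r hH⟩
  let VG : ι × Fin (Module.finrank ℝ E) → VField E M r := fun p =>
    ⟨fun x => gForm W x (diff E (ψ p.1 p.2) x), gForm_smooth hW r (hψr p.1 p.2)⟩
  let V : (ι × Fin (Module.finrank ℝ E)) ⊕ (Unit ⊕ (ι × Fin (Module.finrank ℝ E))) → VField E M r :=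
    Sum.elim VA (Sum.elim (fun _ => G0) VG)
  let c : (ι → E) × ℝ → (ι × Fin (Module.finrank ℝ E)) ⊕ (Unit ⊕ (ι × Fin (Module.finrank ℝ E))) → ℝ := fun q =>
    Sum.elim (fun p => - crd p.2 (q.1 p.1)) (Sum.elim (fun _ => q.2) (fun p => - (q.2 * crd p.2 (q.1 p.1))))
  have hcoord : ∀ j k, Continuous (fun q : (ι → E) × ℝ => crd k (q.1 j)) := fun j k =>
    (crd k).continuous.comp ((continuous_apply j).comp continuous_fst)
  have hc : Continuous c := by
    refine continuous_pi fun s => ?_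
    rcases s with p | _ | p
    · exact (hcoord p.1 p.2).neg
    · exact continuous_snd
    · exact (continuous_snd.mul (hcoord p.1 p.2)).neg
  have hc0 : c (0, 0) = 0 := by
    ext s
    rcases s with p | _ | p <;> simp [c]
  have htend : Tendsto (fun q => X + ∑ s, c q s • V s) (𝓝 ((0 : ι → E), (0 : ℝ)))
      (@nhds _ (crTopology E M r) X) := by
    have h1 := hc.tendsto ((0 : ι → E), (0 : ℝ))
    rw [hc0] at h1
    exact (tendsto_comb X V).comp h1
  refine closure_of_frequently htend ?_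
  have hfreq : ∃ᶠ q in 𝓝 ((0 : ι → E), (0 : ℝ)), 0 < q.2 ∧
      {x | mfderiv 𝓘(ℝ, E) 𝓘(ℝ, ℝ) (fun z => H z - ∑ j, ∑ k, crd k (q.1 j) * ψ j k z) x = 0}.Finite := by
    rw [frequently_iff]
    intro U hU
    rw [nhds_prod_eq, mem_prod_iff] at hU
    obtain ⟨U1, hU1, U2, hU2, hU12⟩ := hU
    obtain ⟨a, ha1, ha2⟩ := (hψd H (hH.of_le hr2)).inter_nhds_nonempty hU1
    have h2 : ∃ ε ∈ U2, (0:ℝ) < ε := by
      have h3 : U2 ∈ 𝓝[>] (0:ℝ) := nhdsWithin_le_nhds hU2
      have h4 := Filter.inter_mem h3 self_mem_nhdsWithin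
      obtain ⟨ε, h5, h6⟩ := Filter.nonempty_of_mem h4
      exact ⟨ε, h5, h6⟩
    obtain ⟨ε, hε1, hε2⟩ := h2
    exact ⟨(a, ε), hU12 ⟨ha2, hε1⟩, hε2, ha1⟩
  refine hfreq.mono ?_
  rintro ⟨a, ε⟩ ⟨hε, hfin⟩
  have hε : 0 < ε := hε
  set H' : M → ℝ := fun z => H z - ∑ j, ∑ k, crd k (a j) * ψ j k z with hH'
  have hH's : ContMDiff 𝓘(ℝ, E) 𝓘(ℝ, ℝ) ((r : ℕ∞ω) + 1) H' := by
    refine hH.sub ?_
    refine ContMDiff.sum fun j _ => ContMDiff.sum fun k _ => ?_
    exact contMDiff_const.mul (hψr j k)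
  set Y : VField E M r := X + ∑ s, c (a, ε) s • V s with hYdef
  have hdiff : ∀ x, diff E H' x = diff E H x - ∑ p : ι × Fin (Module.finrank ℝ E), crd p.2 (a p.1) • diff E (ψ p.1 p.2) x :=
    fun x => diff_perturb (hH.of_le (hr2.trans' (by norm_num))) (fun j k => (hψr j k).of_le
      (hr2.trans' (by norm_num))) a x
  have hYx : ∀ x, Y x = A x (diff E H' x) + ε • gForm W x (diff E H' x) := by
    intro x
    have h1 : Y = X + (∑ p, (- crd p.2 (a p.1)) • VA p + (ε • G0 + ∑ p, (-(ε * crd p.2 (a p.1))) • VG p)) := by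
      rw [hYdef, Fintype.sum_sum_type, Fintype.sum_sum_type]
      simp [c, V]
    have hsumx : ∀ (b : ι × Fin (Module.finrank ℝ E) → ℝ) (F : ι × Fin (Module.finrank ℝ E) → VField E M r),
        (∑ p, b p • F p : VField E M r) x = ∑ p, b p • F p x := by
      intro b F
      have h2 := congrArg (fun f : ∀ x : M, TangentSpace 𝓘(ℝ, E) x => f x)
        (map_sum (ContMDiffSection.coeAddHom 𝓘(ℝ, E) E (r : ℕ∞ω) (TangentSpace 𝓘(ℝ, E) : M → Type))
          (fun p => b p • F p) Finset.univ)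
      have h3 : (∑ p, b p • F p : VField E M r) x = (∑ p, (fun z => b p • F p z) :
        ∀ x : M, TangentSpace 𝓘(ℝ, E) x) x := h2
      rw [h3, Finset.sum_apply]
    have h2 : Y x = X x + ((∑ p, (- crd p.2 (a p.1)) • VA p : VField E M r) x +
        (ε • G0 x + (∑ p, (-(ε * crd p.2 (a p.1))) • VG p : VField E M r) x)) := by
      rw [h1]; rfl
    rw [h2, hsumx, hsumx, hXA, hdiff, map_sub, map_sub, map_sum, map_sum, smul_sub]
    have h3 : ∑ p, (- crd p.2 (a p.1)) • VA p x = - ∑ p : ι × Fin (Module.finrank ℝ E), A x (crd p.2 (a p.1) • diff E (ψ p.1 p.2) x) := by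
      rw [← Finset.sum_neg_distrib]
      refine Finset.sum_congr rfl fun p _ => ?_
      rw [map_smul, neg_smul]; rfl
    have h4 : ∑ p, (-(ε * crd p.2 (a p.1))) • VG p x =
        - (ε • ∑ p : ι × Fin (Module.finrank ℝ E), gForm W x (crd p.2 (a p.1) • diff E (ψ p.1 p.2) x)) := by
      rw [Finset.smul_sum, ← Finset.sum_neg_distrib]
      refine Finset.sum_congr rfl fun p _ => ?_
      rw [map_smul, smul_smul, neg_smul]; rfl
    have h5 : G0 x = gForm W x (diff E H x) := rfl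
    rw [h3, h4, h5]
    abel
  have hpair : ∀ x (α : TangentSpace 𝓘(ℝ, E) x →L[ℝ] ℝ), α (A x α + ε • gForm W x α) =
      α (A x α) + ε * ∑ i, (α (W i x)) ^ 2 := by
    intro x α
    rw [map_add, map_smul, gForm_pair, smul_eq_mul]
  have hsum : ∀ x (α : TangentSpace 𝓘(ℝ, E) x →L[ℝ] ℝ), 0 ≤ ∑ i, (α (W i x)) ^ 2 := fun x α =>
    Finset.sum_nonneg fun i _ => sq_nonneg _
  have hYs : ContMDiff 𝓘(ℝ, E) 𝓘(ℝ, E).tangent 1 (fun x => (⟨x, Y x⟩ : TangentBundle 𝓘(ℝ, E) M)) :=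
    Y.contMDiff.of_le hr1
  have hdyn := dynamics (E := E) (Y := Y) (H := H') hYs (hH's.of_le hr2)
    (fun x => by
      rw [hYx, hpair]
      have := hA.nonneg x (diff E H' x)
      have := hsum x (diff E H' x)
      positivity)
    (fun x hx => by
      rw [hYx, hpair] at hx
      have h1 := hA.nonneg x (diff E H' x)
      have h2 := hsum x (diff E H' x)
      have h3 : ∑ i, (diff E H' x (W i x)) ^ 2 = 0 := by
        by_contra hne
        have h4 : 0 < ∑ i, (diff E H' x (W i x)) ^ 2 := lt_of_le_of_ne h2 (Ne.symm hne)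
        have : 0 < ε * ∑ i, (diff E H' x (W i x)) ^ 2 := mul_pos hε h4
        linarith
      rw [Finset.sum_eq_zero_iff_of_nonneg (fun i _ => sq_nonneg _)] at h3
      exact hspan x _ fun i => pow_eq_zero_iff (two_ne_zero) |>.1 (h3 i (Finset.mem_univ i)))
    (fun x hx => by rw [hYx, hx, map_zero, map_zero, smul_zero, add_zero])
    hfin
  refine ⟨⟨fun x => A x + ε • gForm W x, H', ⟨?_, ?_⟩, hH's, fun x => hYx x⟩, hdyn.1, hdyn.2⟩
  · intro x α
    have h1 : (A x + ε • gForm W x) α = A x α + ε • gForm W x α := rfl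
    rw [h1, hpair]
    have := hA.nonneg x α
    have := hsum x α
    positivity
  · intro H'' hH''
    have h1 := hA.smooth H'' hH''
    have h2 := gForm_smooth hW r hH''
    exact ContMDiff.add_section h1 (ContMDiff.const_smul_section (a := ε) h2)

end Pool.Agent.Palis
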