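import Mathlib
import Pool.Agent.Palis.Defs
import Pool.Agent.Palis.Flow
import Pool.Agent.Palis.Dyn
import Pool.Agent.Palis.Fin
import Pool.Agent.Palis.Main

open scoped Manifold ContDiff Topology
open MeasureTheory Set Filter Metric Bundle

namespace Pool.Agent.Palis

variable {E : Type} [NormedAddCommGroup E] [NormedSpace ℝ E] [FiniteDimensional ℝ E]
  [MeasurableSpace E] [BorelSpace E] {M : Type} [TopologicalSpace M] [ChartedSpace E M] [IsManifold 𝓘(ℝ, E) ∞ M]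

set_option linter.unusedSectionVars false

theorem contMDiffAt_det {k : ℕ∞ω} {m : ℕ} {Q : M → Matrix (Fin m) (Fin m) ℝ} {x₀ : M}
    (hQ : ∀ i j, ContMDiffAt 𝓘(ℝ, E) 𝓘(ℝ, ℝ) k (fun x => Q x i j) x₀) :
    ContMDiffAt 𝓘(ℝ, E) 𝓘(ℝ, ℝ) k (fun x => (Q x).det) x₀ := by
  simp only [Matrix.det_apply]
  refine ContMDiffAt.sum fun σ _ => ?_
  have h1 : ContMDiffAt 𝓘(ℝ, E) 𝓘(ℝ, ℝ) k (fun x => ∏ i, Q x (σ i) i) x₀ :=
    contMDiffAt_finsetProd fun i _ => hQ (σ i) i
  have h2 : (fun x => Equiv.Perm.sign σ • ∏ i, Q x (σ i) i) =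
      fun x => ((Equiv.Perm.sign σ : ℤ) : ℝ) * ∏ i, Q x (σ i) i := by
    ext x
    rw [Units.smul_def, zsmul_eq_mul]
  rw [h2]
  exact contMDiffAt_const.mul h1

/-- A local frame near `x₀` made of globally defined smooth fields. -/
theorem exists_local_frame [T2Space M] (x₀ : M) :
    ∃ (Fr : Fin (Module.finrank ℝ E) → ∀ x : M, TangentSpace 𝓘(ℝ, E) x),
      (∀ k, ContMDiff 𝓘(ℝ, E) 𝓘(ℝ, E).tangent ∞ (fun x => (⟨x, Fr k x⟩ : TangentBundle 𝓘(ℝ, E) M))) ∧
      ∀ᶠ x in 𝓝 x₀, (∀ v : TangentSpace 𝓘(ℝ, E) x,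
        v = ∑ k, crd k (trivializationAt E (TangentSpace 𝓘(ℝ, E) : M → Type) x₀ ⟨x, v⟩).2 • Fr k x) ∧
        ∀ z : Fin (Module.finrank ℝ E) → ℝ, ∀ k,
          crd k (trivializationAt E (TangentSpace 𝓘(ℝ, E) : M → Type) x₀ ⟨x, ∑ k, z k • Fr k x⟩).2 = z k := by
  classical
  have : IsManifold 𝓘(ℝ, E) 1 M := IsManifold.of_le (n := ∞) (by norm_cast)
  have : IsManifold 𝓘(ℝ, E) (∞ + 1) M := IsManifold.of_le (n := ∞) (by norm_cast)
  set e := trivializationAt E (TangentSpace 𝓘(ℝ, E) : M → Type) x₀ with he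
  have hbase : e.baseSet = (chartAt E x₀).source := TangentBundle.trivializationAt_baseSet _
  obtain ⟨f⟩ : Nonempty (SmoothBumpFunction 𝓘(ℝ, E) x₀) := inferInstance
  have hsm : ∀ (v : E), ContMDiffOn 𝓘(ℝ, E) 𝓘(ℝ, E).tangent ∞
      (fun x => (⟨x, e.symm x v⟩ : TangentBundle 𝓘(ℝ, E) M)) (chartAt E x₀).source := by
    intro v
    rw [← hbase]
    refine (e.contMDiffOn_section_baseSet_iff (n := ∞) (IB := 𝓘(ℝ, E))
      (s := fun x => e.symm x v)).2 ?_
    have h1 : ContMDiffOn 𝓘(ℝ, E) 𝓘(ℝ, E) ∞ (fun _ : M => v) e.baseSet := contMDiffOn_const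
    refine h1.congr fun x hx => ?_
    rw [e.apply_mk_symm hx]
  refine ⟨fun k x => f x • e.symm x (bas E k), fun k => ?_, ?_⟩
  · have h1 : ContMDiffOn 𝓘(ℝ, E) 𝓘(ℝ, ℝ) ∞ (f : M → ℝ) (chartAt E x₀).source :=
      f.contMDiff.contMDiffOn
    exact ContMDiffOn.smul_section_of_tsupport h1 (chartAt E x₀).open_source
      f.tsupport_subset_chartAt_source (hsm (bas E k))
  · have hb : e.baseSet ∈ 𝓝 x₀ := e.open_baseSet.mem_nhds (by rw [hbase]; exact mem_chart_source _ _)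
    filter_upwards [f.eventuallyEq_one, hb] with x hfx hxb
    have hfx' : f x = 1 := hfx
    have hdecomp : ∀ w : E, w = ∑ k, crd k w • bas E k := fun w => (sum_crd w).symm
    have hlin : ∀ z : Fin (Module.finrank ℝ E) → ℝ, ∑ k, z k • (f x • e.symm x (bas E k)) =
        e.symmL ℝ x (∑ k, z k • bas E k) := by
      intro z
      rw [map_sum]
      refine Finset.sum_congr rfl fun k _ => ?_
      rw [map_smul, Trivialization.symmL_apply _ hxb, hfx', one_smul]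
    refine ⟨fun v => ?_, fun z k => ?_⟩
    · rw [hlin (fun k => crd k (e ⟨x, v⟩).2), ← hdecomp]
      have h1 := e.symmL_continuousLinearMapAt (R := ℝ) hxb v
      rw [Trivialization.continuousLinearMapAt_apply, Trivialization.linearMapAt_apply, if_pos hxb] at h1
      exact h1.symm
    · rw [hlin z, Trivialization.symmL_apply _ hxb, e.apply_mk_symm hxb]
      simp [crd_bas]

/-- The field defined by `S (Z x) v = b v` for a `C^r` form is `C^r`. -/
theorem solve_smooth [T2Space M] [CompactSpace M] {r : ℕ∞}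
    {S : ∀ x : M, TangentSpace 𝓘(ℝ, E) x →ₗ[ℝ] TangentSpace 𝓘(ℝ, E) x →ₗ[ℝ] ℝ}
    (hS : IsAlmostSymplectic E r S) {H : M → ℝ}
    (hH : ContMDiff 𝓘(ℝ, E) 𝓘(ℝ, ℝ) ((r : ℕ∞ω) + 1) H)
    (Z : ∀ x : M, TangentSpace 𝓘(ℝ, E) x) (hZ : ∀ x v, S x (Z x) v = diff E H x v) :
    ContMDiff 𝓘(ℝ, E) 𝓘(ℝ, E).tangent r (fun x => (⟨x, Z x⟩ : TangentBundle 𝓘(ℝ, E) M)) := by
  intro x₀
  obtain ⟨Fr, hE, hev⟩ := exists_local_frame (E := E) x₀
  set e := trivializationAt E (TangentSpace 𝓘(ℝ, E) : M → Type) x₀ with he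
  have hEr : ∀ k, ContMDiff 𝓘(ℝ, E) 𝓘(ℝ, E).tangent (r : ℕ∞ω)
      (fun x => (⟨x, Fr k x⟩ : TangentBundle 𝓘(ℝ, E) M)) := fun k =>
    (hE k).of_le (by exact_mod_cast (le_top : r ≤ ⊤))
  let EV : Fin (Module.finrank ℝ E) → VField E M r := fun k => ⟨Fr k, hEr k⟩
  set P : M → Matrix (Fin (Module.finrank ℝ E)) (Fin (Module.finrank ℝ E)) ℝ := fun x => Matrix.of fun l k => S x (Fr k x) (Fr l x) with hP
  set b : M → Fin (Module.finrank ℝ E) → ℝ := fun x l => diff E H x (Fr l x) with hb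
  have hPs : ∀ l k, ContMDiffAt 𝓘(ℝ, E) 𝓘(ℝ, ℝ) r (fun x => P x l k) x₀ := fun l k =>
    (hS.smooth (EV k) (EV l)) x₀
  have hbs : ∀ l, ContMDiffAt 𝓘(ℝ, E) 𝓘(ℝ, ℝ) r (fun x => b x l) x₀ := fun l =>
    (contMDiff_lieD hH le_rfl (hEr l)) x₀
  have hdet : ∀ᶠ x in 𝓝 x₀, (P x).det ≠ 0 := by
    filter_upwards [hev] with x hx hdet0
    obtain ⟨z, hz0, hz⟩ := Matrix.exists_mulVec_eq_zero_iff.2 hdet0
    apply hz0
    set v : TangentSpace 𝓘(ℝ, E) x := ∑ k, z k • Fr k x with hv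
    have h1 : ∀ l, S x v (Fr l x) = 0 := by
      intro l
      have h2 := congrFun hz l
      rw [hv, map_sum, LinearMap.sum_apply]
      simp only [map_smul, LinearMap.smul_apply]
      simpa [Matrix.mulVec, dotProduct, hP, mul_comm] using h2
    have h2 : v = 0 := by
      refine hS.nondegenerate x v fun w => ?_
      rw [hx.1 w, map_sum]
      refine Finset.sum_eq_zero fun l _ => ?_
      rw [map_smul, h1, smul_zero]
    ext k
    have h3 := hx.2 z k
    rw [← hv, h2] at h3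
    rw [← h3]
    have h4 := hx.2 0 k
    simpa using h4
  rw [contMDiffAt_section]
  have hcoord : ∀ k, ContMDiffAt 𝓘(ℝ, E) 𝓘(ℝ, ℝ) r (fun x => crd k (e ⟨x, Z x⟩).2) x₀ := by
    intro k
    have h1 : ContMDiffAt 𝓘(ℝ, E) 𝓘(ℝ, ℝ) r (fun x => ((P x).updateCol k (b x)).det) x₀ := by
      refine contMDiffAt_det fun i j => ?_
      by_cases hj : j = k
      · subst hj
        simpa [Matrix.updateCol_apply] using hbs i
      · simpa [Matrix.updateCol_apply, hj] using hPs i j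
    have h2 : ContMDiffAt 𝓘(ℝ, E) 𝓘(ℝ, ℝ) r (fun x => (P x).det) x₀ := contMDiffAt_det hPs
    have h3 : ContMDiffAt 𝓘(ℝ, E) 𝓘(ℝ, ℝ) r (fun x => ((P x).det)⁻¹) x₀ :=
      h2.inv₀ hdet.self_of_nhds
    refine (h3.mul h1).congr_of_eventuallyEq ?_
    filter_upwards [hev, hdet] with x hx hdx
    set z : Fin (Module.finrank ℝ E) → ℝ := fun k => crd k (e ⟨x, Z x⟩).2 with hz
    have hZx : Z x = ∑ k, z k • Fr k x := hx.1 (Z x)
    have hPz : (P x).mulVec z = b x := by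
      ext l
      have h4 := hZ x (Fr l x)
      have h5 : S x (Z x) (Fr l x) = ∑ k, z k * S x (Fr k x) (Fr l x) := by
        conv_lhs => rw [hZx]
        rw [map_sum, LinearMap.sum_apply]
        simp only [map_smul, LinearMap.smul_apply, smul_eq_mul]
      rw [h5] at h4
      rw [hb]
      simp only
      rw [← h4]
      simp only [Matrix.mulVec, dotProduct, hP, Matrix.of_apply]
      exact Finset.sum_congr rfl fun k _ => mul_comm _ _
    have h6 := Matrix.cramer_apply (P x) (b x) k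
    have h7 : (P x).cramer (b x) = (P x).det • z := by
      rw [← hPz, Matrix.cramer_eq_adjugate_mulVec, Matrix.mulVec_mulVec, Matrix.adjugate_mul,
        Matrix.smul_mulVec, Matrix.one_mulVec]
    show crd k (e ⟨x, Z x⟩).2 = ((P x).det)⁻¹ * ((P x).updateCol k (b x)).det
    rw [← h6, h7]
    simp only [Pi.smul_apply, smul_eq_mul]
    rw [← mul_assoc, inv_mul_cancel₀ hdx, one_mul]
  have hsumc : ContMDiffAt 𝓘(ℝ, E) 𝓘(ℝ, E) r
      (fun x => ∑ k, crd k (e ⟨x, Z x⟩).2 • bas E k) x₀ := by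
    refine ContMDiffAt.sum fun k _ => ?_
    exact (hcoord k).smul contMDiffAt_const
  refine hsumc.congr_of_eventuallyEq (Eventually.of_forall fun x => ?_)
  exact (sum_crd _).symm

theorem finDim_tangent (x : M) : FiniteDimensional ℝ (TangentSpace 𝓘(ℝ, E) x) :=
  inferInstanceAs (FiniteDimensional ℝ E)

/-- the linear isomorphism from the tangent to the cotangent space -/
theorem exists_inverse {r : ℕ∞}
    {S : ∀ x : M, TangentSpace 𝓘(ℝ, E) x →ₗ[ℝ] TangentSpace 𝓘(ℝ, E) x →ₗ[ℝ] ℝ}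
    (hS : IsAlmostSymplectic E r S) :
    ∃ A : ∀ x : M, (TangentSpace 𝓘(ℝ, E) x →L[ℝ] ℝ) →ₗ[ℝ] TangentSpace 𝓘(ℝ, E) x,
      ∀ x α v, S x (A x α) v = α v := by
  have hfd := finDim_tangent (E := E) (M := M)
  have hinj : ∀ x, Function.Injective (S x) := by
    intro x
    rw [← LinearMap.ker_eq_bot, LinearMap.ker_eq_bot']
    intro v hv
    exact hS.nondegenerate x v fun w => by rw [hv]; rfl
  have hrank : ∀ x : M, Module.finrank ℝ (TangentSpace 𝓘(ℝ, E) x) =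
      Module.finrank ℝ (Module.Dual ℝ (TangentSpace 𝓘(ℝ, E) x)) := fun x =>
    Subspace.dual_finrank_eq.symm
  let e : ∀ x : M, TangentSpace 𝓘(ℝ, E) x ≃ₗ[ℝ] Module.Dual ℝ (TangentSpace 𝓘(ℝ, E) x) := fun x =>
    LinearEquiv.ofInjectiveOfFinrankEq (S x) (hinj x) (hrank x)
  refine ⟨fun x => ((e x).symm : Module.Dual ℝ (TangentSpace 𝓘(ℝ, E) x) →ₗ[ℝ] TangentSpace 𝓘(ℝ, E) x) ∘ₗ
    (ContinuousLinearMap.coeLM ℝ : (TangentSpace 𝓘(ℝ, E) x →L[ℝ] ℝ) →ₗ[ℝ] (TangentSpace 𝓘(ℝ, E) x →ₗ[ℝ] ℝ)),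
    fun x α v => ?_⟩
  have h1 : S x ((e x).symm (α : TangentSpace 𝓘(ℝ, E) x →ₗ[ℝ] ℝ)) = (α : TangentSpace 𝓘(ℝ, E) x →ₗ[ℝ] ℝ) :=
    (e x).apply_symm_apply _
  exact congrArg (fun f => f v) h1

theorem nonnegForm_of_symplectic [T2Space M] [CompactSpace M] {r : ℕ∞}
    {S : ∀ x : M, TangentSpace 𝓘(ℝ, E) x →ₗ[ℝ] TangentSpace 𝓘(ℝ, E) x →ₗ[ℝ] ℝ}
    (hS : IsAlmostSymplectic E r S)
    {A : ∀ x : M, (TangentSpace 𝓘(ℝ, E) x →L[ℝ] ℝ) →ₗ[ℝ] TangentSpace 𝓘(ℝ, E) x}
    (hA : ∀ x α v, S x (A x α) v = α v) : IsNonnegForm E r A where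
  nonneg x α := by
    rw [← hA x α (A x α), hS.alternating]
  smooth H hH := solve_smooth hS hH _ fun x v => hA x _ v

/-- A nonempty open set is not a null set. -/
theorem not_null_of_isOpen {U : Set M} (hU : IsOpen U) (hne : U.Nonempty) : ¬ Null E U := by
  intro hnull
  obtain ⟨x, hx⟩ := hne
  have h1 := hnull x
  have h2 : IsOpen (extChartAt 𝓘(ℝ, E) x '' (U ∩ (extChartAt 𝓘(ℝ, E) x).source)) := by
    have h3 : extChartAt 𝓘(ℝ, E) x '' (U ∩ (extChartAt 𝓘(ℝ, E) x).source) =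
        (extChartAt 𝓘(ℝ, E) x).target ∩ (extChartAt 𝓘(ℝ, E) x).symm ⁻¹' U := by
      rw [inter_comm]
      exact (extChartAt 𝓘(ℝ, E) x).image_source_inter_eq' U
    rw [h3]
    exact (continuousOn_extChartAt_symm x).isOpen_inter_preimage (isOpen_extChartAt_target x) hU
  exact (h2.measure_pos (Measure.addHaar : Measure E) ⟨_, ⟨x, ⟨hx, mem_extChartAt_source x⟩, rfl⟩⟩).ne' h1

theorem null_singleton (hn : 1 ≤ Module.finrank ℝ E) (p : M) : Null E ({p} : Set M) := by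
  intro x
  have : Nontrivial E := Module.nontrivial_of_finrank_pos (R := ℝ) hn
  refine measure_mono_null (t := {extChartAt 𝓘(ℝ, E) x p}) ?_ (measure_singleton _)
  rintro _ ⟨y, ⟨hy, -⟩, rfl⟩
  rw [mem_singleton_iff.1 hy]; rfl

/-- Fields with a first integral that vanish when the first integral is constant never have
finitely many attractors covering `M`. -/
theorem not_finitelyMany [T2Space M] [CompactSpace M] [ConnectedSpace M] (hn : 1 ≤ Module.finrank ℝ E)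
    {X : ∀ x : M, TangentSpace 𝓘(ℝ, E) x} {H : M → ℝ}
    (hX : ContMDiff 𝓘(ℝ, E) 𝓘(ℝ, E).tangent 1 (fun x => (⟨x, X x⟩ : TangentBundle 𝓘(ℝ, E) M)))
    (hH : ContMDiff 𝓘(ℝ, E) 𝓘(ℝ, ℝ) 1 H) (hint : ∀ x, diff E H x (X x) = 0)
    (hzero : (∀ x, diff E H x = 0) → ∀ x, X x = 0) : ¬ FinitelyManyAttractors E X := by
  rintro ⟨F, hF, hatt, hcov⟩
  have hconst : ∀ γ : ℝ → M, IsMIntegralCurve γ X → ∀ t, H (γ t) = H (γ 0) := by
    intro γ hγ t
    have h1 : ∀ s, HasDerivAt (fun s => H (γ s)) 0 s := by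
      intro s
      have := hasDerivAt_comp_curve hH hγ s
      rwa [show lieD H X (γ s) = 0 from hint _] at this
    exact is_const_of_deriv_eq_zero (fun s => (h1 s).differentiableAt) (fun s => (h1 s).deriv) t 0
  have hval : ∀ Λ ∈ F, ∃ c : ℝ, ∀ p ∈ basin E X Λ, H p = c := by
    intro Λ hΛ
    obtain ⟨γ, hγ, h0, hdense⟩ := (hatt Λ hΛ).transitive
    refine ⟨H (γ 0), fun p hp => ?_⟩
    obtain ⟨⟨γ', h0', hγ'⟩, hsub⟩ := hp
    obtain ⟨q, -, hq⟩ := isCompact_univ.exists_mapClusterPt (f := atTop) (u := γ') (by simp)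
    have hqΛ : q ∈ Λ := hsub ⟨γ', h0', hγ', hq⟩
    have h1 : H q = H (γ 0) := by
      have h2 : IsClosed {x | H x = H (γ 0)} := isClosed_eq hH.continuous continuous_const
      have h3 : closure (γ '' Ici 0) ⊆ {x | H x = H (γ 0)} := by
        refine h2.closure_subset_iff.2 ?_
        rintro _ ⟨t, -, rfl⟩
        exact hconst γ hγ t
      exact h3 (hdense hqΛ)
    have h4 : H q = H p := by
      have h5 : IsClosed {x | H x = H p} := isClosed_eq hH.continuous continuous_const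
      have h6 : ∀ᶠ t in atTop, γ' t ∈ {x | H x = H p} :=
        Eventually.of_forall fun t => by
          show H (γ' t) = H p
          rw [hconst γ' hγ' t, h0']
      exact h5.mem_of_mapClusterPt hq h6
    rw [← h4, h1]
  choose! c hc using hval
  set C : Set ℝ := c '' F with hC
  have hCfin : C.Finite := hF.image c
  have hrange : ∀ x, H x ∈ C := by
    by_contra hcon
    push Not at hcon
    obtain ⟨x, hx⟩ := hcon
    have hopen : IsOpen (H ⁻¹' Cᶜ) := hCfin.isClosed.isOpen_compl.preimage hH.continuous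
    refine not_null_of_isOpen (E := E) hopen ⟨x, hx⟩ (null_mono ?_ hcov)
    intro p hp hp'
    simp only [mem_iUnion] at hp'
    obtain ⟨Λ, hΛ, hpΛ⟩ := hp'
    exact hp ⟨Λ, hΛ, (hc Λ hΛ p hpΛ).symm⟩
  have hHc : ∀ x y, H x = H y := by
    intro x y
    have h1 : IsPreconnected (range H) := isPreconnected_range hH.continuous
    have h3 : (range H).Finite := hCfin.subset (by rintro _ ⟨x, rfl⟩; exact hrange x)
    have h4 : ∀ a ∈ range H, ∀ b ∈ range H, ¬ a < b := fun a ha b hb hab =>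
      (Set.Icc_infinite hab) (h3.subset (h1.Icc_subset ha hb))
    have h2 : (range H).Subsingleton := by
      intro a ha b hb
      exact le_antisymm (not_lt.1 (h4 b hb a ha)) (not_lt.1 (h4 a ha b hb))
    exact h2 ⟨x, rfl⟩ ⟨y, rfl⟩
  have hX0 : ∀ x, X x = 0 := by
    refine hzero fun x => ?_
    obtain ⟨y⟩ : Nonempty M := ⟨x⟩
    have h1 : H = fun _ => H y := funext fun z => hHc z y
    rw [diff, h1]
    exact mfderiv_const
  have hbas : ∀ Λ ∈ F, False := by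
    intro Λ hΛ
    obtain ⟨γ, hγ, h0, hdense⟩ := (hatt Λ hΛ).transitive
    apply (hatt Λ hΛ).positive_basin
    refine null_mono (T := {γ 0}) ?_ (null_singleton hn _)
    intro p hp
    have h1 : Λ ⊆ {γ 0} := by
      intro q hq
      have h2 : γ '' Ici 0 ⊆ {γ 0} := by
        rintro _ ⟨t, -, rfl⟩
        exact curve_const hX (hX0 _) hγ rfl t
      exact (closure_minimal h2 isClosed_singleton) (hdense hq)
    have h3 : p ∈ omegaSet E X p := by
      refine ⟨fun _ => p, rfl, isMIntegralCurve_const (hX0 p), ?_⟩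
      exact (tendsto_const_nhds (x := p) (f := (atTop : Filter ℝ))).mapClusterPt
    exact h1 (hp.2 h3)
  have hFe : F = ∅ := eq_empty_of_forall_notMem fun Λ hΛ => hbas Λ hΛ
  rw [hFe] at hcov
  simp only [mem_empty_iff_false, iUnion_of_empty, iUnion_empty, compl_empty] at hcov
  exact not_null_of_isOpen (E := E) isOpen_univ univ_nonempty hcov

/-- Hamiltonian fields of almost symplectic forms. -/
theorem hamiltonian [T2Space M] [CompactSpace M] [ConnectedSpace M] {r : ℕ∞} (hr : 1 ≤ r)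
    {S : ∀ x : M, TangentSpace 𝓘(ℝ, E) x →ₗ[ℝ] TangentSpace 𝓘(ℝ, E) x →ₗ[ℝ] ℝ}
    (hS : IsAlmostSymplectic E r S) {H : M → ℝ}
    (hH : ContMDiff 𝓘(ℝ, E) 𝓘(ℝ, ℝ) ((r : ℕ∞ω) + 1) H) (X : VField E M r)
    (hX : ∀ x v, S x (X x) v = diff E H x v) :
    IsEnergyField E r X ∧ (1 ≤ Module.finrank ℝ E → ¬ FinitelyManyAttractors E X) := by
  have hr1 : (1 : ℕ∞ω) ≤ r := by exact_mod_cast hr
  obtain ⟨A, hA⟩ := exists_inverse hS
  have hinj : ∀ x (v w : TangentSpace 𝓘(ℝ, E) x), (∀ z, S x v z = S x w z) → v = w := by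
    intro x v w h
    rw [← sub_eq_zero]
    refine hS.nondegenerate x _ fun z => ?_
    rw [map_sub, LinearMap.sub_apply, h z, sub_self]
  refine ⟨⟨A, H, nonnegForm_of_symplectic hS hA, hH, fun x => ?_⟩, fun hn => ?_⟩
  · exact hinj x _ _ fun z => by rw [hX, hA]
  · refine not_finitelyMany hn (H := H) (X.contMDiff.of_le hr1) (hH.of_le ?_) (fun x => ?_)
      (fun h x => ?_)
    · exact hr1.trans (le_add_right le_rfl)
    · rw [← hX x (X x), hS.alternating]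
    · refine hS.nondegenerate x _ fun w => ?_
      rw [hX, h x]; rfl

end Pool.Agent.Palis
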